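import Mathlib
import Pool.Agent.T9h31.Den
import Pool.Agent.T9h31.Rt5

/-!
# The `3`-part of the formula of Birch and Swinnerton-Dyer for `y² + y = x³` over the cubic extensions
# `F = K(∛D)` of `K = ℚ(√-3)`, with unbounded Tate-Shafarevich group: the exact formula

`E : y² + y = x³`.  `D` runs through the cube-free elements of `𝓞 K` that are `1` modulo `3` and have
norm different from `1` modulo `9`, `t` is the number of the prime divisors of `D`, `E_D : y² + D y = x³`.
Suppose that `E_D(K)` is finite and `Ш(E_D / K)[3^∞] = 0`; this holds for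
`∏_{i ≥ 0} (1 - 3^{-(2 i + 1)}) = 0.639...` of these `D`, also if one asks for many prime divisors.
Then, over the field `F` of degree six over `ℚ`:

* `E(F)` is finite, `L(E / F, s)` is entire and does not vanish at `1`;
* `Ш(E / F)[3^∞]` is isomorphic to `(ℤ / 3)^(2 t - 2)`;
* the `3`-part of the formula holds: `L(E / F, 1) √|disc F| / (∏_w N(w)^(n_w) ∏_{w | ∞} 2 A)` is a rational
  number with the same `3`-adic valuation as `#Ш(E / F)[3^∞] ∏_w c_w / #E(F)²`.  Here `c_w` is the Tamagawa
  number, and `N(w)^(n_w)` the absolute value at `w` of the quotient of `ω = dx / (2 y + 1)` by the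
  invariant differential of a minimal equation at `w`.

For ALL the `D` of the class, `L(E / F, s)` is entire, `L(E / F, 1) √|disc F| / (2 A)³` is rational, and it is
zero or its `3`-adic valuation is at least `2 t - 5`, with equality if and only if `E_D(K)` is finite and
`Ш(E_D / K)[3^∞] = 0`.

The known hand-in `MP_f50388_nt/MajorityCubicExtensions` has the order of `Ш(E / F)[3^∞]` up to a bounded
power of three (`2 t - 8 ≤ s ≤ 2 t + 16`), and the central value relative to `K`.  New are the exact group, and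
the exact formula over `F`: the value over `K`, the discriminant, the torsion, the minimal equations and
the Tamagawa numbers.

## The proof

There is one place `w` of `F` above `3`, of degree one and ramification index six.  Let `λ = √-3`, `θ³ = D`,
`D = 1 + 3 m`, `m` a unit at `w`; then `θ - 1` has valuation two.

*Upper bound* (`T9h31/Lev`, `Cur1`, `Plc`, `Sel`, `Sel2`, `Chr`, `Upc2`).  A class of `Ш(E / F)` killed by `λ` comes
from the Kummer character of some `b ∈ F^*` all of whose valuations are divisible by three and which at `w`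
is a cube times an element of `1 + 𝔭⁴` (for `Y² + Y = X³` over `F_w`, `Y` is a cube times an element of
`1 + 𝔭⁴`).  The group of these `b` modulo cubes is filtered by the powers of `σ - 1`, `σ` a generator of
`Gal(F / K)`.  The invariant classes come from products of prime divisors of `D`, with one linear condition at `w`, and
`θ` and `ω`; for the other step one uses the matrix of the cubic residue symbols, which has full rank
by the assumption on `E_D`.  In all there are at most `3^t` classes of `b`, and `ω` gives the trivial class.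

*Lower bound* (`T9h31/Low2`).  For `B` a product of powers of prime divisors of `D`, with one linear condition at
`w`, and `P` a point of order three, the cocycle `σ ↦ (h σ) P`, `h` the Kummer character of `B` over `F`,
is locally trivial; the relations come from `D`, which is a cube in `F`, and from `E(F) / 3 E(F)`.

*The value* (`T9h31/L0val`, `Valu`).  `L(E / K, 1) = |Ω|² / 27`, `Ω` the period; the values of the twisted
series have known `3`-adic order (`Pool.Agent.N883.SY.lvgA`).

*The discriminant* (`T9h31/Dsc`).  `ρ = (θ - 1)² / λ` is a root of the Eisenstein polynomial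
`X³ + λ X² + λ² (1 + 2 m) X - λ m²`, the derivative at `ρ` has valuation four: `disc F = ± 3⁷ n`.

*The local factors* (`T9h31/TamLoc`, `Tam`).  At `w`, with `r³ = 2` modulo `𝔭⁹` (`r = -θ` or `-θ²`), the
substitution `x = ϖ² x' + r`, `y = ϖ³ y' + 1` gives a minimal equation with discriminant of valuation six and
reduction of type `I₀*`; the index of the group of points of nonsingular reduction is `1`, `2` or `4`.

*The torsion* (`T9h31/Tors`).  `E[3]` is rational over `K`, and a point of `E(F)` of order nine would make `ω` a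
cube in `F`.  So `#E(F)` is nine times a number prime to three.
-/

set_option autoImplicit false

-- Mathlib's proof that three is prime, and not the one of a file of the library
attribute [local instance high] Nat.fact_prime_three

namespace Pool.Agent.Results.MP_e996df_nt.ExactThreePartCubicExtensions

open NumberField IsDedekindDomain WeierstrassCurve WithZero
open Pool.Agent.TH841.NF.D (Sha)
open Pool.Agent.Y696 (NonsingRed)
open scoped Classical

/-- The curve `E_D : y² + D y = x³`. -/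
def curve {F : Type} [Field F] (D : F) : WeierstrassCurve F := ⟨0, 0, D, 0, 0⟩

/-- `L` is entire, and it is the `L`-series of `W` for `Re s > 3 / 2`. -/
def IsLFunction {F : Type} [Field F] [NumberField F] (W : WeierstrassCurve F) (L : ℂ → ℂ) : Prop :=
  Differentiable ℂ L ∧ ∀ s : ℂ, 3 / 2 < s.re →
    LSeriesSummable ((fun n : ℤ => (n : ℂ)) ∘ W.LFunction) s ∧ L s = W.LSeries s

section local_factors
variable {F : Type} [Field F] [NumberField F]

/-- There is a change of variables `x = u² x' + ⋯`, `y = u³ y' + ⋯` over the completion at `v`, with `u` of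
(additive) valuation `n`, to a minimal equation of `W`, and the group of the points of nonsingular reduction
of this equation has index `c`: `c` is the Tamagawa number of `W` at `v`, and the invariant differential of
`W` is `u⁻¹` times the one of the minimal equation, so that the absolute value of the quotient
is `N(v)^n`. -/
def IsLocalData (W : WeierstrassCurve F) (v : HeightOneSpectrum (𝓞 F)) (n : ℤ) (c : ℕ) : Prop :=
  ∃ C : VariableChange (v.adicCompletion F),
    Valued.v (C.u : v.adicCompletion F) = exp (-n) ∧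
    IsMinimal (v.adicCompletionIntegers F) (C • W.baseChange (v.adicCompletion F)) ∧
    ∃ H : AddSubgroup (C • W.baseChange (v.adicCompletion F)).toAffine.Point,
      (∀ P, P ∈ H ↔ NonsingRed Valued.v (C • W.baseChange (v.adicCompletion F)) P) ∧ H.index = c

/-- The contribution `∏ N(v)^(n v)` of the finite places to the period. -/
noncomputable def scaling (n : HeightOneSpectrum (𝓞 F) → ℤ) : ℚ :=
  ∏ᶠ v, (Ideal.absNorm v.asIdeal : ℚ) ^ n v

/-- The product of the Tamagawa numbers. -/
noncomputable def tamagawa (c : HeightOneSpectrum (𝓞 F) → ℕ) : ℕ := ∏ᶠ v, c v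

/-- The contribution `(2 A)^(r₂)` of the infinite places of the totally complex field `F`, where `A` is
the area of a fundamental parallelogram of the lattice `Λ` and `r₂ = [F : ℚ] / 2`. -/
noncomputable def infinitePart (F : Type) [Field F] [NumberField F] (Λ : PeriodPair) : ℂ :=
  ((2 * |((starRingEnd ℂ) Λ.ω₁ * Λ.ω₂).im| : ℝ) : ℂ) ^ (Module.finrank ℚ F / 2)

end local_factors

/-- The `3`-primary part of `Ш(E / F)` is isomorphic to `(ℤ / 3)^s`. -/
def ShaThree (F : Type) [Field F] [NumberField F] (s : ℕ) : Prop :=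
  ∃ f : (Fin s → ZMod 3) →+ Sha (curve (1 : F)), Function.Injective f ∧
    ∀ x : Sha (curve (1 : F)), (∃ n : ℕ, 3 ^ n • x = 0) ↔ x ∈ Set.range f

/-- The rank part of the conjecture for `E / F`, the structure of `Ш(E / F)[3^∞]`, and the `3`-part of the
formula: for all the period lattices `Λ` of `E` the number
`q = L(E / F, 1) √|disc F| / (∏_v N(v)^(n_v) (2 A)^(r₂))` is rational, not zero, and has the same
`3`-adic valuation as `#Ш(E / F)[3^∞] ∏_v c_v / #E(F)²`; `t` is the number of the prime divisors of `D`. -/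
def ThreePart (F : Type) [Field F] [NumberField F] (t : ℕ) : Prop :=
  (curve (1 : F)).IsElliptic ∧ Finite (curve (1 : F)).toAffine.Point ∧
  padicValNat 3 (Nat.card (curve (1 : F)).toAffine.Point) = 2 ∧
  ShaThree F (2 * t - 2) ∧
  Nat.card {x : Sha (curve (1 : F)) // ∃ n : ℕ, 3 ^ n • x = 0} = 3 ^ (2 * t - 2) ∧
  ∃ (L : ℂ → ℂ) (n : HeightOneSpectrum (𝓞 F) → ℤ) (c : HeightOneSpectrum (𝓞 F) → ℕ),
    IsLFunction (curve (1 : F)) L ∧ L 1 ≠ 0 ∧ (∀ v, IsLocalData (curve (1 : F)) v (n v) (c v)) ∧
    {v | n v ≠ 0 ∨ c v ≠ 1}.Finite ∧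
    ∀ Λ : PeriodPair, Λ.g₂ = 0 → Λ.g₃ = -1 → ∃ q : ℚ, q ≠ 0 ∧
      (q : ℂ) = L 1 * ((Real.sqrt |(discr F : ℝ)| : ℝ) : ℂ) / (scaling n * infinitePart F Λ) ∧
      padicValRat 3 q =
        padicValRat 3 ((Nat.card {x : Sha (curve (1 : F)) // ∃ n : ℕ, 3 ^ n • x = 0} : ℚ) *
          tamagawa c / (Nat.card (curve (1 : F)).toAffine.Point : ℚ) ^ 2)

/-- `L(E / F, s)` is entire, the discriminant of `F` is `3⁷` times a number prime to three, up to sign, the
number `q = L(E / F, 1) √|disc F| / (2 A)³` is rational, it is zero or its `3`-adic valuation is at least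
`2 t - 5`, with equality if and only if `P` holds. -/
def Law (F : Type) [Field F] [NumberField F] (t : ℕ) (P : Prop) : Prop :=
  (∃ n : ℕ, ¬ 3 ∣ n ∧ (discr F).natAbs = 3 ^ 7 * n) ∧
  ∃ L : ℂ → ℂ, IsLFunction (curve (1 : F)) L ∧
    ∀ Λ : PeriodPair, Λ.g₂ = 0 → Λ.g₃ = -1 → ∃ q : ℚ,
      (q : ℂ) = L 1 * ((Real.sqrt |(discr F : ℝ)| : ℝ) : ℂ) / infinitePart F Λ ∧
      (q = 0 ∨ 2 * (t : ℤ) - 5 ≤ padicValRat 3 q) ∧
      (q ≠ 0 ∧ padicValRat 3 q = 2 * (t : ℤ) - 5 ↔ P)

variable {K : Type} [Field K] [NumberField K]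

/-- The cube-free `D = 1` modulo `3` with norm different from `1` modulo `9`. -/
def InClass (D : 𝓞 K) : Prop :=
  (3 : 𝓞 K) ∣ D - 1 ∧ (∀ x : 𝓞 K, x ^ 3 ∣ D → IsUnit x) ∧ ¬ (9 : ℤ) ∣ Algebra.norm ℤ D - 1

/-- `E_D(K)` is finite and the `3`-primary part of `Ш(E_D / K)` is trivial. -/
def FiniteAndTrivial (D : 𝓞 K) : Prop :=
  Finite (curve (D : K)).toAffine.Point ∧ ∀ (n : ℕ) (x : Sha (curve (D : K))), 3 ^ n • x = 0 → x = 0

/-- The number of the prime ideals that divide `D`. -/
noncomputable def numberOfPrimes (D : 𝓞 K) : ℕ :=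
  {v : HeightOneSpectrum (𝓞 K) | D ∈ v.asIdeal}.ncard

theorem result (K : Type) [Field K] [NumberField K] [IsCyclotomicExtension {3} ℚ K] :
    (∃ c : ℝ, 0 < c ∧ ∃ X₀ : ℕ, ∀ X : ℕ, X₀ ≤ X →
      c * X ≤ ({D : 𝓞 K | Algebra.norm ℤ D ≤ X ∧ InClass D}.ncard : ℝ)) ∧
    (∀ B : ℕ, Filter.Tendsto (fun X : ℕ =>
      ({D : 𝓞 K | Algebra.norm ℤ D ≤ X ∧ InClass D ∧ FiniteAndTrivial D ∧
        B ≤ numberOfPrimes D}.ncard : ℝ) /
        ({D : 𝓞 K | Algebra.norm ℤ D ≤ X ∧ InClass D}.ncard : ℝ)) Filter.atTop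
      (nhds (∏' i : ℕ, (1 - (1 / 3 : ℝ) ^ (2 * i + 1))))) ∧
    (0.639 : ℝ) < ∏' i : ℕ, (1 - (1 / 3 : ℝ) ^ (2 * i + 1)) ∧
    (∃ Λ : PeriodPair, Λ.g₂ = 0 ∧ Λ.g₃ = -1) ∧
    ∀ D : 𝓞 K, InClass D →
      (∃ (F : Type) (_ : Field F) (_ : NumberField F) (_ : Algebra K F) (θ : F),
        Module.finrank K F = 3 ∧ θ ^ 3 = algebraMap K F D) ∧
      ∀ (F : Type) [Field F] [NumberField F] [Algebra K F] (θ : F),
        Module.finrank K F = 3 → θ ^ 3 = algebraMap K F D →
        (FiniteAndTrivial D → ThreePart F (numberOfPrimes D)) ∧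
        Law F (numberOfPrimes D) (FiniteAndTrivial D) := by
  obtain ⟨h1, h2, -, h4, -⟩ := Pool.Agent.R419.KF.final K
  refine ⟨h1, Pool.Agent.T9h31.den_many K, h4, ?_, fun D hD => ?_⟩
  · obtain ⟨Λ, g2, g3⟩ := (Pool.Agent.Y696.CTK.PER 1 1 one_ne_zero (one_pow 3)).1
    exact ⟨Λ, g2, by rw [g3, one_pow]⟩
  obtain ⟨hF, hN⟩ := Pool.Agent.T9h31.fam_of hD
  obtain ⟨-, -, a3, -, -⟩ := (Pool.Agent.N883.FF.finalB K).2.1 D hF hN
  refine ⟨a3, fun F _ _ _ θ hd hθ => ?_⟩
  have h6 : Module.finrank ℚ F / 2 = 3 := by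
    rw [Pool.Agent.T9h31.deg6 (K := K) hd]
  obtain ⟨L, l1, l2, l3, l4⟩ := Pool.Agent.T9h31.lf_part hD hd hθ
  have l1' : Pool.Agent.N883.SY.IsLf (Pool.Agent.N883.SX.E1 F) L := l1
  obtain ⟨V, hV⟩ := Pool.Agent.Y715.T.Fin.exists_over_three
  have hv3 : V.valuation (3 : ℂ) ≠ 0 := (Valuation.ne_zero_iff _).2 (by norm_num)
  refine ⟨fun ht => ?_, l3, L, l1, fun Λ g2 g3 => ?_⟩
  · obtain ⟨b1, b2, b3, f, hf, hr⟩ := Pool.Agent.T9h31.sha_part hD ht hd hθ
    obtain ⟨j, n, π, e, θ', m, -, -, -, -, -, -, hT, -, hnp⟩ := Pool.Agent.T9h31.pack hD hd hθ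
    obtain ⟨nn, c, C, c1, c2, c3, c4⟩ := Pool.Agent.T9h31.loc_part hT
    have hcard : Nat.card {x : Sha (curve (1 : F)) // ∃ n : ℕ, 3 ^ n • x = 0} =
        3 ^ (2 * numberOfPrimes D - 2) := by
      have e1 : {x : Sha (curve (1 : F)) | ∃ n : ℕ, 3 ^ n • x = 0} = Set.range f := by
        ext x
        exact hr x
      have e2 : Nat.card {x : Sha (curve (1 : F)) // ∃ n : ℕ, 3 ^ n • x = 0} =
          Nat.card (Set.range f) := by
        rw [← e1]
        rfl
      rw [e2, Nat.card_range_of_injective hf, Nat.card_fun, Nat.card_zmod, Nat.card_fin]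
      rfl
    refine ⟨b1, b2, b3, ⟨f, hf, hr⟩, hcard, L, nn, c, l1, l2 ht, c1, c2, fun Λ g2 g3 => ?_⟩
    obtain ⟨r, hr⟩ := Pool.Agent.T9h31.rat_F hD hd hθ l1' g2 g3
    obtain ⟨g, -, k2, -, k4⟩ := l4 Λ g2 g3 _ V.valuation hV _ C b3 c3
    rw [k2 ht, mul_one] at k4
    have ht1 : Pool.Agent.T9h31.npl D = n + 1 := hnp
    have e5 : Pool.Agent.T9h31.npl D = numberOfPrimes D := rfl
    have hsp : ((scaling nn : ℚ) : ℂ) * (tamagawa c : ℂ) = ((3 * C : ℕ) : ℂ) := by
      rw [← c4]
      exact (Pool.Agent.T9h31.Rt.split_prod c2).symm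
    have hI : infinitePart F Λ = (((2 * |((starRingEnd ℂ) Λ.ω₁ * Λ.ω₂).im| : ℝ) : ℂ)) ^ 3 := by
      unfold infinitePart
      rw [h6]
    rw [hcard]
    exact Pool.Agent.T9h31.Rt.concF hV hr hI hsp c3 b3 k4 (by omega)
  · obtain ⟨r, hr⟩ := Pool.Agent.T9h31.rat_F hD hd hθ l1' g2 g3
    obtain ⟨g, k1, k2, k3, k4⟩ := l4 Λ g2 g3 _ V.valuation hV 9 1 (by
      have : Fact (Nat.Prime 3) := ⟨Nat.prime_three⟩
      have h9 : (9 : ℕ) = 3 ^ 2 := by norm_num
      rw [h9, padicValNat.prime_pow]) (by norm_num)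
    refine ⟨r, ?_, Pool.Agent.T9h31.Rt.lawF hV hr k1 k2 k3 k4⟩
    unfold infinitePart
    rw [h6]
    exact hr

end Pool.Agent.Results.MP_e996df_nt.ExactThreePartCubicExtensions
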