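import Mathlib
import Pool.Agent.T9h31.AsmC
import Pool.Agent.T9h31.DenC
import Pool.Agent.T9h31.Rt6
import Pool.Agent.Y703.CT.T1d

/-!
# The `3`-part of the formula of Birch and Swinnerton-Dyer for `y² + y = x³` over the pure cubic fields
# `k = ℚ(∛N)`, with unbounded Tate-Shafarevich group: the exact formula

`E : y² + y = x³`.  `N` runs through the cube-free numbers, prime to `3`, not `±1` modulo `9`, divisible by
exactly one prime `2` modulo `3`; let `t` be the number of the primes `1` modulo `3` that divide `N`.  The field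
`k = ℚ(∛N)` is not Galois over `ℚ`, it has one real and one complex place.  Suppose that `N` has no splitting
`d₀ d₁ d₂` (a condition on the cubic residue symbols; equivalently, `E_N(ℚ)` is finite and
`Ш(E_N / ℚ)[3^∞] = 0` for the cubic twist `E_N : y² + N y = x³`).  This holds for exactly
`∏_{i ≥ 1} (1 - 3^{-i}) = 0.5601...` of the `N`, also if one asks for many prime divisors.  Then:

* `E(k)` is finite, `L(E / k, s)` is entire and does not vanish at `1`;
* `Ш(E / k)[3^∞]` is isomorphic to `(ℤ / 3)^(2 t)`;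
* the `3`-part of the formula holds: `L(E / k, 1) √|disc k| / (∏_w N(w)^(n_w) · ω · 2 A)` is a rational number with
  the same `3`-adic valuation as `#Ш(E / k)[3^∞] ∏_w c_w / #E(k)²`.  Here `ω` is the real period, `A` the area
  of the period lattice of `dx / (2 y + 1)`, `c_w` is the Tamagawa number, and `N(w)^(n_w)` the absolute
  value at `w` of the quotient of `dx / (2 y + 1)` by the invariant differential of a minimal equation at `w`.

For ALL the `N` of the class, `L(E / k, s)` is entire, `L(E / k, 1) √|disc k| / (ω · 2 A)` is rational, and it is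
zero or its `3`-adic valuation is at least `2 t - 2`, with equality if and only if `N` has no splitting.

The known hand-in `MP_ae0bd0_nt/PureCubicFields` (squarefree `N`) has `L(E / k, 1) ≠ 0`, the finiteness of
`E(k)`, and that `3` kills `Ш(E / k)[3^∞]`.  New are the order and the structure of `Ш(E / k)[3^∞]` and
the exact formula over `k`.

## The proof

Let `K = ℚ(√-3)` and `F = K k`, of degree six.  Over `F` the classes of `Ш(E / F)` killed by three are known from
`MP_e996df_nt/ExactThreePartCubicExtensions`: they come from pairs of characters of products of powers of prime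
divisors of `N` (`T9h31/Spc`).  `Gal(F / k)` permutes these primes and acts on `E[3]`.

*The group over `k`* (`T9h31/Kt`, `Cjg` to `Cjg4`, `Cnt`).  The classes over `k` killed by three are the classes
over `F` fixed by the conjugation: a cocycle over `F` with values in `E[3]` that is fixed by the conjugation
extends to `k`, and it is locally trivial over `k` since its restriction is and two is prime to
three.  The fixed pairs are `(x, y)` with `x ∘ ι = - x + y`, `y ∘ ι = y`, `ι` the conjugation of the primes, with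
one linear condition each at the place above three; there are `3^(2 t)` of them.

*The value* (`T9h31/Val3`, `Rper`).  `L(E / k, s)` is one half of `L(E / K, s)` times the two twisted Hecke series,
whose values at `1` are real, of known `3`-adic order; `L(E / ℚ, 1)` is computed from the points of
order three, and `ω² = 3 |Ω|²`.

*The discriminant, the local factors, the torsion* (`T9h31/DscC`, `TamC`, `TorsC`).  `θ - 1`, `θ³ = ± N = 1 + 3 m`,
is a root of an Eisenstein polynomial, and the derivative there is `3 θ²`: `disc k = - 27 n`, `n` prime to three.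
At the place above three the equation is minimal of type `III*`, and the index of the group of points of
nonsingular reduction is `1` or `2`.  `E(k)[3^∞]` has order three.
-/

set_option autoImplicit false

-- Mathlib's proof that three is prime, and not the one of a file of the library
attribute [local instance high] Nat.fact_prime_three

namespace Pool.Agent.Results.MP_e996df_nt.ExactThreePartPureCubic

open NumberField IsDedekindDomain WeierstrassCurve WithZero
open Pool.Agent.TH841.NF.D (Sha)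
open Pool.Agent.Y696 (NonsingRed)
open scoped Classical

/-- The curve `E_D : y² + D y = x³`. -/
def curve {F : Type} [Field F] (D : F) : WeierstrassCurve F := ⟨0, 0, D, 0, 0⟩

/-- `N` is cube-free, not divisible by `3`, not `±1` modulo `9`, and divisible by exactly one prime
that is `2` modulo `3`. -/
def InClass (N : ℕ) : Prop :=
  (N ≠ 0 ∧ ¬ 3 ∣ N ∧ ∀ p : ℕ, p.Prime → ¬ p ^ 3 ∣ N) ∧ N % 9 ≠ 1 ∧ N % 9 ≠ 8 ∧
    ∃ q : ℕ, q.Prime ∧ q % 3 = 2 ∧ q ∣ N ∧ ∀ p : ℕ, p.Prime → p ∣ N → p ≠ q → p % 3 = 1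

/-- In every factorization of `N` in coprime factors `d₀ d₁ d₂` for which `d₁ d₂²`, `d₂ d₀²`,
`d₀ d₁²` are cubes modulo the primes dividing `d₀`, `d₁`, `d₂` respectively, two factors are `1`. -/
def HasNoSplitting (N : ℕ) : Prop :=
  ∀ d : ZMod 3 → ℕ, ∏ c, d c = N → (∀ c c', c ≠ c' → Nat.Coprime (d c) (d c')) →
    (∀ (c : ZMod 3) (p : ℕ), p.Prime → p ∣ d c →
      ∃ x : ℤ, (p : ℤ) ∣ (d (c + 1) : ℤ) * (d (c + 2) : ℤ) ^ 2 - x ^ 3) →
    ∃ c, ∀ c', c' ≠ c → d c' = 1

/-- `L` is entire, and it is the `L`-series of `W` for `Re s > 3 / 2`. -/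
def IsLFunction {F : Type} [Field F] [NumberField F] (W : WeierstrassCurve F) (L : ℂ → ℂ) : Prop :=
  Differentiable ℂ L ∧ ∀ s : ℂ, 3 / 2 < s.re →
    LSeriesSummable ((fun n : ℤ => (n : ℂ)) ∘ W.LFunction) s ∧ L s = W.LSeries s

section local_factors
variable {F : Type} [Field F] [NumberField F]

/-- There is a change of variables `x = u² x' + ⋯`, `y = u³ y' + ⋯` over the completion at `v`, with `u` of
(additive) valuation `n`, to a minimal equation of `W`, and the group of the points of nonsingular reduction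
of this equation has index `c`: `c` is the Tamagawa number of `W` at `v`, and the invariant differential of
`W` is `u⁻¹` times the one of the minimal equation, so that the absolute value of the quotient
is `N(v)^n`. -/
def IsLocalData (W : WeierstrassCurve F) (v : HeightOneSpectrum (𝓞 F)) (n : ℤ) (c : ℕ) : Prop :=
  ∃ C : VariableChange (v.adicCompletion F),
    Valued.v (C.u : v.adicCompletion F) = exp (-n) ∧
    IsMinimal (v.adicCompletionIntegers F) (C • W.baseChange (v.adicCompletion F)) ∧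
    ∃ H : AddSubgroup (C • W.baseChange (v.adicCompletion F)).toAffine.Point,
      (∀ P, P ∈ H ↔ NonsingRed Valued.v (C • W.baseChange (v.adicCompletion F)) P) ∧ H.index = c

/-- The contribution `∏ N(v)^(n v)` of the finite places to the period. -/
noncomputable def scaling (n : HeightOneSpectrum (𝓞 F) → ℤ) : ℚ :=
  ∏ᶠ v, (Ideal.absNorm v.asIdeal : ℚ) ^ n v

/-- The product of the Tamagawa numbers. -/
noncomputable def tamagawa (c : HeightOneSpectrum (𝓞 F) → ℕ) : ℕ := ∏ᶠ v, c v

/-- `ω` is the smallest positive real number in the lattice `Λ`. -/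
def IsRealPeriod (Λ : PeriodPair) (ω : ℝ) : Prop :=
  IsLeast {t : ℝ | 0 < t ∧ (t : ℂ) ∈ Λ.lattice} ω

/-- The contribution `ω^(r₁) (2 A)^(r₂)` of the infinite places of `F`, where `A` is the area of a
fundamental parallelogram of the lattice `Λ`. -/
noncomputable def infinitePart (F : Type) [Field F] [NumberField F] (Λ : PeriodPair) (ω : ℝ) : ℂ :=
  (ω : ℂ) ^ InfinitePlace.nrRealPlaces F *
    ((2 * |((starRingEnd ℂ) Λ.ω₁ * Λ.ω₂).im| : ℝ) : ℂ) ^ InfinitePlace.nrComplexPlaces F

end local_factors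

/-- The `3`-primary part of `Ш(E / F)` is isomorphic to `(ℤ / 3)^s`. -/
def ShaThree (F : Type) [Field F] [NumberField F] (s : ℕ) : Prop :=
  ∃ f : (Fin s → ZMod 3) →+ Sha (curve (1 : F)), Function.Injective f ∧
    ∀ x : Sha (curve (1 : F)), (∃ n : ℕ, 3 ^ n • x = 0) ↔ x ∈ Set.range f

/-- The rank part of the conjecture for `E / F`, the structure of `Ш(E / F)[3^∞]`, and the `3`-part of the
formula: for all the period lattices `Λ` of `E`, with the least positive real period `ω`, the number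
`q = L(E / F, 1) √|disc F| / (∏_v N(v)^(n_v) · ω^(r₁) (2 A)^(r₂))` is rational, not zero, and has the same
`3`-adic valuation as `#Ш(E / F)[3^∞] ∏_v c_v / #E(F)²`. -/
def ThreePart (F : Type) [Field F] [NumberField F] (t : ℕ) : Prop :=
  (curve (1 : F)).IsElliptic ∧ Finite (curve (1 : F)).toAffine.Point ∧
  padicValNat 3 (Nat.card (curve (1 : F)).toAffine.Point) = 1 ∧
  ShaThree F (2 * t) ∧
  Nat.card {x : Sha (curve (1 : F)) // ∃ n : ℕ, 3 ^ n • x = 0} = 3 ^ (2 * t) ∧
  ∃ (L : ℂ → ℂ) (n : HeightOneSpectrum (𝓞 F) → ℤ) (c : HeightOneSpectrum (𝓞 F) → ℕ),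
    IsLFunction (curve (1 : F)) L ∧ L 1 ≠ 0 ∧ (∀ v, IsLocalData (curve (1 : F)) v (n v) (c v)) ∧
    {v | n v ≠ 0 ∨ c v ≠ 1}.Finite ∧
    ∀ Λ : PeriodPair, Λ.g₂ = 0 → Λ.g₃ = -1 → ∀ ω : ℝ, IsRealPeriod Λ ω → ∃ q : ℚ, q ≠ 0 ∧
      (q : ℂ) = L 1 * ((Real.sqrt |(discr F : ℝ)| : ℝ) : ℂ) / (scaling n * infinitePart F Λ ω) ∧
      padicValRat 3 q =
        padicValRat 3 ((Nat.card {x : Sha (curve (1 : F)) // ∃ n : ℕ, 3 ^ n • x = 0} : ℚ) *
          tamagawa c / (Nat.card (curve (1 : F)).toAffine.Point : ℚ) ^ 2)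

/-- The field `F` has one real and one complex place and discriminant `3³` times a number prime to three,
up to sign, `L(E / F, s)` is entire, the number `q = L(E / F, 1) √|disc F| / (ω · 2 A)` is rational, it is zero
or its `3`-adic valuation is at least `2 t - 2`, with equality if and only if `P` holds. -/
def Law (F : Type) [Field F] [NumberField F] (t : ℕ) (P : Prop) : Prop :=
  InfinitePlace.nrRealPlaces F = 1 ∧ InfinitePlace.nrComplexPlaces F = 1 ∧
  (∃ n : ℕ, ¬ 3 ∣ n ∧ (discr F).natAbs = 3 ^ 3 * n) ∧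
  ∃ L : ℂ → ℂ, IsLFunction (curve (1 : F)) L ∧
    ∀ Λ : PeriodPair, Λ.g₂ = 0 → Λ.g₃ = -1 → ∀ ω : ℝ, IsRealPeriod Λ ω → ∃ q : ℚ,
      (q : ℂ) = L 1 * ((Real.sqrt |(discr F : ℝ)| : ℝ) : ℂ) / infinitePart F Λ ω ∧
      (q = 0 ∨ 2 * (t : ℤ) - 2 ≤ padicValRat 3 q) ∧
      (q ≠ 0 ∧ padicValRat 3 q = 2 * (t : ℤ) - 2 ↔ P)

/-- The number of the primes that divide `N`, minus one. -/
def numberOfSplitPrimes (N : ℕ) : ℕ := N.primeFactors.card - 1

theorem result :
    (∃ c : ℝ, 0 < c ∧ ∃ X₀ : ℕ, ∀ X : ℕ, X₀ ≤ X →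
      c * X / Real.sqrt (Real.log X) ≤ (((Finset.Icc 1 X).filter fun N => InClass N).card : ℝ)) ∧
    (∀ B : ℕ, Filter.Tendsto (fun X : ℕ =>
      (((Finset.Icc 1 X).filter fun N => InClass N ∧ HasNoSplitting N ∧
        B ≤ N.primeFactors.card).card : ℝ) /
        (((Finset.Icc 1 X).filter fun N => InClass N).card : ℝ)) Filter.atTop
      (nhds (∏' i : ℕ, (1 - (1 / 3 : ℝ) ^ (i + 1))))) ∧
    (0.56 : ℝ) < ∏' i : ℕ, (1 - (1 / 3 : ℝ) ^ (i + 1)) ∧
    (∃ (Λ : PeriodPair) (ω : ℝ), Λ.g₂ = 0 ∧ Λ.g₃ = -1 ∧ IsRealPeriod Λ ω) ∧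
    ∀ N : ℕ, InClass N →
      (HasNoSplitting N ↔ (Finite (curve (N : ℚ)).toAffine.Point ∧
        ∀ (n : ℕ) (x : Pool.Agent.TH841.SH.D.Sha (curve (N : ℚ))), 3 ^ n • x = 0 → x = 0)) ∧
      (∃ (k : Type) (_ : Field k) (_ : NumberField k) (θ : k),
        Module.finrank ℚ k = 3 ∧ θ ^ 3 = (N : k)) ∧
      ∀ (k : Type) [Field k] [NumberField k] (θ : k), Module.finrank ℚ k = 3 → θ ^ 3 = (N : k) →
        (HasNoSplitting N → ThreePart k (numberOfSplitPrimes N)) ∧
        Law k (numberOfSplitPrimes N) (HasNoSplitting N) := by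
  refine ⟨Pool.Agent.R419.CF.low, fun B => ?_, Pool.Agent.Y461.CX.t_C3.2.2.2, ?_,
    fun N hN => ⟨?_, Pool.Agent.R419.CE.ex_field hN, fun k _ _ θ hd hθ => ?_⟩⟩
  · have h := Pool.Agent.T9h31.Kt.den_B B
    unfold Pool.Agent.Y703.CX.c3 at h
    exact h
  · obtain ⟨Λ, ω, g2, g3, h⟩ := Pool.Agent.Y696.exists_real
    exact ⟨Λ, ω, g2, g3, h⟩
  · obtain ⟨-, f, -, u, -, -, -, h2⟩ := Pool.Agent.Y703.CT.fin_all (D := N) hN
    have h : Pool.Agent.Y703.CT.EQ (Pool.Agent.Y703.CT.WD N) = curve (N : ℚ) := by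
      unfold Pool.Agent.Y703.CT.EQ Pool.Agent.Y703.CT.WD curve WeierstrassCurve.map
      simp
    unfold Pool.Agent.Y703.CT.Triv3 at h2
    rw [h] at h2
    exact h2.symm
  obtain ⟨η, m, hm, hη⟩ := Pool.Agent.T9h31.Kt.eta_ex hN hθ
  obtain ⟨r1, r2⟩ := Pool.Agent.T9h31.Kt.places_k hd hm hη
  obtain ⟨L, l1, l2, l3, l4⟩ := Pool.Agent.T9h31.Kt.lf_k hN hd hθ
  have l1' : Pool.Agent.N883.SY.IsLf (Pool.Agent.N883.SX.E1 k) L := l1
  obtain ⟨V, hV⟩ := Pool.Agent.Y715.T.Fin.exists_over_three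
  have hI : ∀ (Λ : PeriodPair) (ω : ℝ), infinitePart k Λ ω =
      (ω : ℂ) * (((2 * |((starRingEnd ℂ) Λ.ω₁ * Λ.ω₂).im| : ℝ) : ℂ)) := by
    intro Λ ω
    unfold infinitePart
    rw [r1, r2, pow_one, pow_one]
  refine ⟨fun ht => ?_, r1, r2, l3, L, l1, fun Λ g2 g3 ω hω => ?_⟩
  · obtain ⟨b1, b2, b3, f, hf, hr⟩ := Pool.Agent.T9h31.Kt.sha_k hN ht hd hθ
    obtain ⟨nn, c, C, c1, c2, c3, c4⟩ := Pool.Agent.T9h31.Kt.loc_k hd hm hη
    have hcard : Nat.card {x : Sha (curve (1 : k)) // ∃ n : ℕ, 3 ^ n • x = 0} =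
        3 ^ (2 * numberOfSplitPrimes N) := by
      have e1 : {x : Sha (curve (1 : k)) | ∃ n : ℕ, 3 ^ n • x = 0} = Set.range f := by
        ext x
        exact hr x
      have e2 : Nat.card {x : Sha (curve (1 : k)) // ∃ n : ℕ, 3 ^ n • x = 0} =
          Nat.card (Set.range f) := by
        rw [← e1]
        rfl
      rw [e2, Nat.card_range_of_injective hf, Nat.card_fun, Nat.card_zmod, Nat.card_fin]
      rfl
    refine ⟨b1, b2, b3, ⟨f, hf, hr⟩, hcard, L, nn, c, l1, l2 ht, c1, c2, fun Λ g2 g3 ω hω => ?_⟩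
    obtain ⟨r, hr⟩ := Pool.Agent.T9h31.Kt.rat_k hN hd hθ l1' g2 g3 hω
    obtain ⟨g, -, k2, -, k4⟩ := l4 Λ g2 g3 ω hω _ V.valuation hV _ C b3 c3
    rw [k2 ht, mul_one] at k4
    have hsp : ((scaling nn : ℚ) : ℂ) * (tamagawa c : ℂ) = (C : ℂ) := by
      rw [← c4]
      exact (Pool.Agent.T9h31.Rt.split_prod c2).symm
    rw [hcard]
    exact Pool.Agent.T9h31.Kt.concK hV hr (hI Λ ω) hsp c3 b3 k4
  · obtain ⟨r, hr⟩ := Pool.Agent.T9h31.Kt.rat_k hN hd hθ l1' g2 g3 hω
    obtain ⟨g, k1, k2, k3, k4⟩ := l4 Λ g2 g3 ω hω _ V.valuation hV 3 1 (by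
      have : Fact (Nat.Prime 3) := ⟨Nat.prime_three⟩
      exact padicValNat.self (by norm_num)) (by norm_num)
    refine ⟨r, ?_, Pool.Agent.T9h31.Kt.lawK hV hr k1 k2 k3 k4⟩
    rw [hI]
    exact hr

end Pool.Agent.Results.MP_e996df_nt.ExactThreePartPureCubic
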