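import Pool.Agent.T9h30.VL.Main2

/-!
# The `p`-part of the conjecture of Birch and Swinnerton-Dyer over abelian extensions of `p`-power degree of an imaginary
# quadratic field

`K` is an imaginary quadratic field of class number one, `E : y² = x³ + a x + b` is an elliptic curve over `K`
(which need not be the base change of a curve over `ℚ`, nor have complex multiplication), `f` is its newform: the
Bianchi newform of weight two over `K` with `L(E/K, s) = L(f, s)`, Euler factor by Euler factor; and `p` is an odd prime.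

Suppose that `E(K)` has no element of order `p`, that the `p`-Selmer group of `E/K` is trivial, and that the central
value is prime to `p`: the value `Φ(0)` of the primitive `Φ` of the harmonic differential of `f` at the cusp `0` is not in
`p Λ`, where `Λ ≅ ℤ` is the group of the values of `Φ` at the cusps `x/m`, `m` prime to the level.

A place `v ∤ 2p(4a³ + 27b²)` of `K` is admissible if `p` does not divide the number of the points of `E` over the residue
field of `v`. For a number field `F ⊇ K` put `n = [F : K]` and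
`q(F) = L(E/F, 1) √|d_F| / Ω(E/F)`, with the global period `Ω(E/F) = ∏_v N(v)^(n_v) ∏_{w ∣ ∞} 2 A_w`: `N(v)^(n_v)` is the
absolute value at `v` of the quotient of `ω = dx/2y` by the invariant differential of a minimal equation of `E` at `v`,
and `A_w` is the area of the parallelogram of the periods of `ω` for the place `w`. Let `t(F)` be the product of the
Tamagawa numbers.

Theorem. Let `F/K` be one of the following extensions:
(1) any subfield of `K(ζ_m)`, of `p`-power degree over `K`, in which the places `v ∣ 2p(4a³ + 27b²)` split completely, for any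
`m` prime to `p` such that all places `v ∣ m` of `K` are admissible;
(2) any `F ⊆ K(ζ_m)` with a Galois group over `K` of exponent dividing `p ^ N`, for `m` a product of different elements of
`P`, where `P` is a set of prime numbers `l ≡ 1` modulo `p ^ N` of positive density among all prime numbers, which exists for
every `N`, if for one prime number `l₀` all the places of `K` above `l₀` are admissible, of a norm which is `1`
modulo `p`;
(3) any abelian extension of `p`-power degree (in general not Galois over `ℚ`) in which the places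
`v ∣ 2p(4a³ + 27b²)` split completely and which is the class field of characters of `K` whose conductors are products of
different admissible places, in the sense that the law of reciprocity holds for them.

Then (i) `L(E/F, s)` (the `L`-series of Mathlib) has a meromorphic continuation to `ℂ`, and
`ord_{s = 1} L(E/F, s) = rank E(F) = 0`; (ii) `Ш(E/F)[p^∞] = 0`, and `E(F)` is finite of an order prime to `p`;
(iii) there is a rational number `u` of `p`-adic valuation zero with
`L(E/F, 1) √|d_F| = (L(E/K, 1) √|d_K|)^n u`, `q(F) = q(K)^n u`, and `t(F) = t(K)^n ≠ 0`.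
Hence `ord_p q(F) = n ord_p q(K)` for every extension of the `p`-adic valuation to `ℂ`, and the `p`-part of the
formula, `q ∈ ℚ` and `ord_p q = ord_p (#Ш[p^∞] t / #E²)`, holds for `E/F` if it holds for the one curve `E/K`, and
conversely if `q(K)` is rational.

The local data `n_v`, `c_v` exist and are unique at all places, and they are `(0, 1)` at almost all places; the quotients
`q` and the products `t` over `F` are unique as well (this is part of the statement: no choice of the minimal equations, of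
the bases of the period lattices or of the continuation matters). The period at a complex place is `2 A_w` here; in the
problem file it is `2 ∫ |ω ∧ conj ω|`, which is `2 A_w` or `4 A_w` according to the reading of the measure. Since `p` is odd,
and the number of the places is multiplied by `n`, a power of two does not matter in any of the statements.

The proof (`Pool/Agent/T9h30/VL`, `PG`, `SH`). The continuation, the rank and the order of `L` are those of
`MP_cd906c_nt/AbelianOddPrimeExtensions`. The `p`-primary part of `Ш(E/F)` is trivial as the Selmer group is. For the value: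
`L(E/F, s) = ∏_ψ L(f ⊗ χ_ψ, s)` exactly, over the characters `ψ` of `Gal(F/K)`; the Euler factors at the ramified
places agree since the `χ_ψ` are primitive, and those at the places `v ∣ 2p(4a³ + 27b²)` since these split completely.
The number `L(f ⊗ χ, 1) N(m) / (τ(χ) L(f, 1))` is a quotient of sums of values of `Φ` and it is a unit at all places above `p`
in the field of the values of `χ` (a congruence modulo the primes above `p`, each prime divisor `v` of the conductor giving
a factor congruent to `± #E(k_v)`). The product over all `χ` of it is rational, the Gauss sums contribute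
`τ(χ) τ(χ^{-1}) = N(m)`, `m` the conductor. As `F/K` has odd degree and is unramified above `p`, `√|d_F|` is `√|d_K|^n` times an
integer prime to `p` (the relative discriminant has as its norm a square). The periods and the Tamagawa numbers: the places
`v ∣ 2(4a³ + 27b²)` split completely, so the completions of `F` above `v` are `K_v`, with the same minimal equations;
at the other places the reduction is good, also over `F`; and the infinite places of `F` are complex, with the same
lattice or its conjugate. The local data exist (the index of the points of nonsingular reduction is finite, by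
compactness) and are unique (two minimal equations are related by an integral change of variables), and `g₂`, `g₃`
determine the lattice (from the library).

Parts of the proof by other helpers of the team: helper13 (the discriminant), helper31 and helper13 (transport of the
local polynomials), helper46 (the completions at places which split, the local data at good places), helper82 (transport of
the local data), helper18 (existence of the local data, finite index).
-/

set_option autoImplicit false

open NumberField IsDedekindDomain WeierstrassCurve WithZero Filter Topology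
open Pool.Agent.TH841.NF.D (Sha)
open Pool.Agent.Y696 (NonsingRed)

namespace Pool.Agent.Results.MP_e996df_nt.PPartAbelianExtensions

/-- The curve `E : y² = x³ + a x + b`. -/
def curve {R : Type} [CommRing R] (a b : R) : WeierstrassCurve R := ⟨0, 0, 0, a, b⟩

/-- `K` is an imaginary quadratic field, `σ` is one of its two embeddings in `ℂ`, and `δ` generates the
different of `K`: an `x ∈ K` is in `𝓞` if and only if `Tr(x y / δ) ∈ ℤ` for all `y ∈ 𝓞`. -/
structure IsFieldData (K : Type) [Field K] [NumberField K] (σ : K →+* ℂ) (δ : K) : Prop where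
  quadratic : Module.finrank ℚ K = 2
  imaginary : ∃ x, (starRingEnd ℂ) (σ x) ≠ σ x
  different : ∀ x : K, (∃ a : 𝓞 K, (a : K) = x) ↔
    ∀ y : 𝓞 K, ∃ m : ℤ, Algebra.trace ℚ K (x * y / δ) = m

/-- `h(y) = ∫_0^∞ exp(-1/v - y v) dv = 2 y^(-1/2) K₁(2 √y)`, with the Bessel function `K₁`. -/
noncomputable def bessel (y : ℝ) : ℝ := ∫ v in Set.Ioi (0 : ℝ), Real.exp (-(1 / v) - y * v)

/-- The additive character `e(z) = exp(2πi (z/δ + conj (z/δ)))` of `ℂ`, trivial on `𝓞`. -/
noncomputable def addChar (δ z : ℂ) : ℂ :=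
  Complex.exp (2 * Real.pi * Complex.I * (z / δ + (starRingEnd ℂ) (z / δ)))

/-- The denominator `|c z + d|² + |c|² t²` of the action of the matrix `(a, b; c, d)` on the hyperbolic
space `{(z, t) : z ∈ ℂ, t > 0}`. -/
noncomputable def den (c d z : ℂ) (t : ℝ) : ℝ := ‖c * z + d‖ ^ 2 + ‖c‖ ^ 2 * t ^ 2

/-- The first coordinate `((a z + b) conj (c z + d) + a conj(c) t²) / (|c z + d|² + |c|² t²)` of the image
of `(z, t)` under the matrix `(a, b; c, d)`. -/
noncomputable def actZ (a b c d z : ℂ) (t : ℝ) : ℂ :=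
  ((a * z + b) * (starRingEnd ℂ) (c * z + d) + a * (starRingEnd ℂ) c * (t : ℂ) ^ 2) /
    (den c d z t : ℂ)

/-- The second coordinate, for a matrix of determinant one; in general it is `|ad - bc|` times this. -/
noncomputable def actT (c d z : ℂ) (t : ℝ) : ℝ := t / den c d z t

section field
variable {K : Type} [Field K] [NumberField K]

/-- The function `Φ(z, t) = ∑_{x ∈ 𝓞} c((x)) t² h(N(x) (2πt/|δ|)²) e(x z)
  = (|δ|/π) ∑_{x ≠ 0} (c((x))/|x|) t K₁(4π|x|t/|δ|) e(x z)` on the hyperbolic space, with the coefficients `c`.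
Up to a constant factor it is the primitive, zero at the cusp `∞`, of the harmonic differential of the
form of weight two with the Fourier coefficients `c`: its derivative by `t` is
`-4 ∑_{x ≠ 0} c((x)) t K₀(4π|x|t/|δ|) e(x z)`. -/
noncomputable def primitive (σ : K →+* ℂ) (δ : K) (c : Ideal (𝓞 K) → ℂ) (z : ℂ) (t : ℝ) : ℂ :=
  ∑' x : 𝓞 K, c (Ideal.span {x}) * ((t ^ 2 * bessel (Ideal.absNorm (Ideal.span {x}) *
    (2 * Real.pi * t / ‖σ δ‖) ^ 2) : ℝ) : ℂ) * addChar (σ δ) (σ x * z)

/-- The group `Λ` generated by the values of the primitive `Φ` at the cusps `x/m`, `m ≠ 0` prime to the level (that is,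
by the limits of `Φ(x/m, t)` for `t → 0`). -/
def Lam (σ : K →+* ℂ) (δ : K) (n : 𝓞 K) (c : Ideal (𝓞 K) → ℂ) : AddSubgroup ℂ :=
  AddSubgroup.closure {z | ∃ x m : 𝓞 K, m ≠ 0 ∧ IsCoprime m n ∧
    Tendsto (fun t => primitive σ δ c (σ x / σ m) t) (𝓝[>] 0) (𝓝 z)}

/-- The numbers `c(I)` are the Hecke eigenvalues of a Bianchi newform `f` of weight two, level `(n)` and
trivial character over `K`, with rational eigenvalues: they satisfy `c(𝓞) = 1`, the (trivial) bound `c(I) = O(N(I))`
and the Hecke relations `c(v I) = c(v) c(I)` for `v ∤ I`, `c(v² I) = c(v) c(v I) - N(v) c(I)` for the primes `v ∤ n`, and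
`c(v I) = c(v) c(I)` for `v ∣ n`; the differential `dΦ` of the function `Φ` with the coefficients `c` is
invariant under `Γ₀(n)`, that is, `Φ(γ P) - Φ(P)` is a constant for every `γ ∈ Γ₀(n)`; `dΦ` is an
eigenform, with the eigenvalue `±1`, of the Fricke involution `W = (0, -1; n, 0)`; and the group `Λ` of the values of `Φ` at
cusps is cyclic (this is so for rational eigenvalues, by multiplicity one and the theorem of Manin, Drinfeld and
Kurčanov: the quotient of `H₁(Γ₀(n), cusps; ℤ)` which belongs to `f` has rank one). -/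
structure IsNewform (σ : K →+* ℂ) (δ : K) (n : 𝓞 K) (c : Ideal (𝓞 K) → ℂ) : Prop where
  level : n ≠ 0
  zero : c ⊥ = 0
  one : c ⊤ = 1
  bound : ∃ C : ℝ, ∀ I, ‖c I‖ ≤ C * Ideal.absNorm I
  good : ∀ v : HeightOneSpectrum (𝓞 K), n ∉ v.asIdeal → ∀ I,
    (¬ v.asIdeal ∣ I → c (v.asIdeal * I) = c v.asIdeal * c I) ∧
    c (v.asIdeal * (v.asIdeal * I)) = c v.asIdeal * c (v.asIdeal * I) -
      Ideal.absNorm v.asIdeal * c I
  bad : ∀ v : HeightOneSpectrum (𝓞 K), n ∈ v.asIdeal → ∀ I,
    c (v.asIdeal * I) = c v.asIdeal * c I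
  invariant : ∃ κ : Matrix.SpecialLinearGroup (Fin 2) (𝓞 K) → ℂ,
    ∀ γ : Matrix.SpecialLinearGroup (Fin 2) (𝓞 K), n ∣ γ.1 1 0 → ∀ (z : ℂ) (t : ℝ), 0 < t →
      primitive σ δ c (actZ (σ (γ.1 0 0)) (σ (γ.1 0 1)) (σ (γ.1 1 0)) (σ (γ.1 1 1)) z t)
        (actT (σ (γ.1 1 0)) (σ (γ.1 1 1)) z t) = primitive σ δ c z t + κ γ
  fricke : ∃ w κ : ℂ, w * w = 1 ∧ ∀ (z : ℂ) (t : ℝ), 0 < t →
    primitive σ δ c (actZ 0 (-1) (σ n) 0 z t) (‖σ n‖ * actT (σ n) 0 z t) =
      -w * primitive σ δ c z t + κ
  cyclic : ∃ ω ∈ Lam σ δ n c, ∀ l ∈ Lam σ δ n c, ∃ j : ℤ, l = j * ω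

/-- The central value is prime to `p`: `Φ(0)`, the limit of `Φ(0, t)` for `t → 0`, is not in `p Λ`. -/
def UnitCentralValue (σ : K →+* ℂ) (δ : K) (n : 𝓞 K) (c : Ideal (𝓞 K) → ℂ) (p : ℕ) : Prop :=
  ∃ z₀ : ℂ, Tendsto (fun t => primitive σ δ c 0 t) (𝓝[>] 0) (𝓝 z₀) ∧
    ∀ y ∈ Lam σ δ n c, z₀ ≠ p * y

open Classical in
/-- `f` is the newform of the curve `E`, that is, `L(E/K, s) = L(f, s)`, Euler factor by Euler factor: at every
finite place `v` of `K` the polynomial of the local factor of `E` (that of Mathlib) is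
`1 - c(v) X + N(v) X²` if `v ∤ n`, and `1 - c(v) X` if `v ∣ n`. -/
def IsNewformOf (E : WeierstrassCurve K) (n : 𝓞 K) (c : Ideal (𝓞 K) → ℂ) : Prop :=
  ∀ v : HeightOneSpectrum (𝓞 K),
    ((E.baseChange (v.adicCompletion K)).localPolynomial (v.adicCompletionIntegers K)).map
      (Int.castRingHom ℂ) = 1 - Polynomial.C (c v.asIdeal) * Polynomial.X +
        Polynomial.C (if n ∈ v.asIdeal then 0 else (Ideal.absNorm v.asIdeal : ℂ)) * Polynomial.X ^ 2

/-- The group `E(M)`, for an extension `M` of `K` and the curve `E : y² = x³ + a x + b` over `K`. -/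
abbrev Pts (a b : K) (M : Type) [Field M] [Algebra K M] : Type :=
  ((curve a b).baseChange M).toAffine.Point

/-- The homomorphism `E(M) → E(M')` given by a homomorphism `M → M'` over `K`. -/
noncomputable def push {a b : K} {M M' : Type} [Field M] [Field M'] [Algebra K M] [Algebra K M']
    [DecidableEq M] [DecidableEq M'] (f : M →ₐ[K] M') : Pts a b M →+ Pts a b M' :=
  WeierstrassCurve.Affine.Point.map (W' := (curve a b).toAffine) (S := K) f

/-- An algebraic closure of the completion `K_v`. -/
abbrev Clo (v : HeightOneSpectrum (𝓞 K)) : Type := AlgebraicClosure (v.adicCompletion K)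

open Classical in
/-- `f : Gal(M/K) → E(M)` is a cocycle with values of order `p` whose class in `H¹(K, E[p])` is in the `p`-Selmer
group of `E/K`, `M/K` being a finite Galois extension: it is zero on the inertia groups of the places
`w ∤ 2p(4a³ + 27b²)` of `M`, and at the places `v ∣ 2p(4a³ + 27b²)` of `K` its class becomes trivial in
`H¹(K_v, E)`: for every embedding `ι` of `M` in the algebraic closure of `K_v` there is a point `P` over this closure with
`ι(f(s)) = τ(P) - P` for all `τ` in the Galois group of `K_v`, where `s` is the restriction of `τ` to `M`. -/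
structure IsSelmerCocycle (a b : 𝓞 K) (p : ℕ) {M : Type} [Field M] [NumberField M] [Algebra K M]
    [DecidableEq M] (f : (M ≃ₐ[K] M) → Pts (a : K) (b : K) M) : Prop where
  cocycle : ∀ g h : M ≃ₐ[K] M, f (g * h) = f g + push (g : M →ₐ[K] M) (f h)
  torsion : ∀ g : M ≃ₐ[K] M, p • f g = 0
  unramified : ∀ w : HeightOneSpectrum (𝓞 M),
    algebraMap (𝓞 K) (𝓞 M) (2 * p * (4 * a ^ 3 + 27 * b ^ 2)) ∉ w.asIdeal →
      ∀ g : M ≃ₐ[K] M, (∀ x : 𝓞 M, g • x - x ∈ w.asIdeal) → f g = 0
  localCondition : ∀ v : HeightOneSpectrum (𝓞 K), 2 * p * (4 * a ^ 3 + 27 * b ^ 2) ∈ v.asIdeal →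
    ∀ ι : M →ₐ[K] Clo v, ∃ P : Pts (a : K) (b : K) (Clo v),
      ∀ (τ : Clo v ≃ₐ[v.adicCompletion K] Clo v) (s : M ≃ₐ[K] M), (∀ x, τ (ι x) = ι (s x)) →
        push ι (f s) = push (τ.restrictScalars K : Clo v →ₐ[K] Clo v) P - P

/-- The `p`-Selmer group of `E/K` is trivial: all the cocycles in it, for all finite Galois extensions `M/K`, are the
coboundaries `g ↦ g(T) - T` of points `T` of `E(M)` of order `p`. -/
def TrivialSelmer (a b : 𝓞 K) (p : ℕ) : Prop :=
  ∀ (M : Type) [Field M] [DecidableEq M] [NumberField M] [Algebra K M] [IsGalois K M]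
    (f : (M ≃ₐ[K] M) → Pts (a : K) (b : K) M), IsSelmerCocycle a b p f →
      ∃ T : Pts (a : K) (b : K) M, p • T = 0 ∧ ∀ g : M ≃ₐ[K] M, f g = push (g : M →ₐ[K] M) T - T

open Classical in
/-- `E(K)` has no element of order `p`. -/
def NoTorsion (a b : 𝓞 K) (p : ℕ) : Prop := ∀ T : Pts (a : K) (b : K) K, p • T = 0 → T = 0

/-- The number of the points of `y² = x³ + a x + b`, with the point at infinity, over the residue field of `v`. -/
noncomputable def points (a b : 𝓞 K) (v : HeightOneSpectrum (𝓞 K)) : ℕ :=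
  Nat.card {P : (𝓞 K ⧸ v.asIdeal) × (𝓞 K ⧸ v.asIdeal) //
    P.2 ^ 2 = P.1 ^ 3 + Ideal.Quotient.mk v.asIdeal a * P.1 + Ideal.Quotient.mk v.asIdeal b} + 1

/-- The admissible places: `v ∤ 2p(4a³ + 27b²)`, and the number of the points of `E` over the residue field of `v` is not
divisible by `p`. -/
def Admissible (a b : 𝓞 K) (p : ℕ) (v : HeightOneSpectrum (𝓞 K)) : Prop :=
  2 * (p : 𝓞 K) * (4 * a ^ 3 + 27 * b ^ 2) ∉ v.asIdeal ∧ ¬ p ∣ points a b v

/-- `χ` is a character of `K` of `p`-power order and of conductor `∏_{v ∈ T} v`, as a function on `𝓞` (`K` has class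
number one): a primitive character modulo the product of the `v ∈ T`, trivial on the units, and zero on the `x` which
are not prime to the conductor. -/
structure IsCharacter (p : ℕ) (T : Finset (HeightOneSpectrum (𝓞 K))) (χ : 𝓞 K → ℂ) : Prop where
  one : χ 1 = 1
  mul : ∀ x y, χ (x * y) = χ x * χ y
  zero : ∀ x, χ x = 0 ↔ ∃ v ∈ T, x ∈ v.asIdeal
  periodic : ∀ x y, (∀ v ∈ T, x - y ∈ v.asIdeal) → χ x = χ y
  units : ∀ u, IsUnit u → χ u = 1
  primitive : ∀ v ∈ T, ∃ x, (∀ v' ∈ T, v' ≠ v → x - 1 ∈ v'.asIdeal) ∧ χ x ≠ 0 ∧ χ x ≠ 1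
  order : ∃ k : ℕ, ∀ x, χ x ≠ 0 → χ x ^ p ^ k = 1

/-- The set `P` of prime numbers has positive lower density: there is a `d > 0` such that for all large `X` at least
`d π(X)` elements of `P` are at most `X`. -/
def PositiveDensity (P : Set ℕ) : Prop :=
  ∃ d : ℝ, 0 < d ∧ ∀ᶠ X : ℕ in atTop, d * Nat.primeCounting X ≤ {l : ℕ | l ≤ X ∧ l ∈ P}.ncard

section extension

variable (F : Type) [Field F] [NumberField F] [Algebra K F]

/-- The places `v ∣ 2p(4a³ + 27b²)` of `K` split completely in the Galois extension `F/K` (there is an embedding of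
`F` in `K_v`). -/
def Splits (a b : 𝓞 K) (p : ℕ) : Prop :=
  ∀ v : HeightOneSpectrum (𝓞 K), 2 * (p : 𝓞 K) * (4 * a ^ 3 + 27 * b ^ 2) ∈ v.asIdeal →
    Nonempty (F →ₐ[K] v.adicCompletion K)

/-- The places `u` of `F` above `v`. -/
def Above (v : HeightOneSpectrum (𝓞 K)) : Type :=
  {u : HeightOneSpectrum (𝓞 F) // u.asIdeal.comap (algebraMap (𝓞 K) (𝓞 F)) = v.asIdeal}

/-- `F` is the class field of a group of characters of `K` of `p`-power order, of conductors which are products of
different admissible places: `F/K` is an abelian extension of `p`-power degree, and for each of the characters `ψ` of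
its Galois group there is such a character `χ` of `K`, of conductor `∏_{v ∈ T} v`, with the law of reciprocity:
`ψ(t) = χ(v)` for all places `v ∉ T` of `K` and all Frobenius automorphisms `t ∈ Gal(F/K)` at places of `F` above
`v`. -/
structure IsClassField [IsPrincipalIdealRing (𝓞 K)] (a b : 𝓞 K) (p : ℕ) : Prop where
  galois : IsGalois K F
  degree : ∃ k : ℕ, Module.finrank K F = p ^ k
  abelian : ∀ s t : F ≃ₐ[K] F, s * t = t * s
  reciprocity : ∀ ψ : (F ≃ₐ[K] F) →* ℂ, ∃ (T : Finset (HeightOneSpectrum (𝓞 K))) (χ : 𝓞 K → ℂ),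
    IsCharacter p T χ ∧ (∀ v ∈ T, Admissible a b p v) ∧
    ∀ v : HeightOneSpectrum (𝓞 K), v ∉ T → ∀ (u : Above F v) (t : F ≃ₐ[K] F),
      (∀ x : 𝓞 F, t • x - x ^ Ideal.absNorm v.asIdeal ∈ u.1.asIdeal) →
      ψ t = χ (Submodule.IsPrincipal.generator v.asIdeal)

end extension

end field

section conj

variable {F : Type} [Field F] [NumberField F]

/-- `H` is equal to `L(E/F, s)` for `Re s > 2` and it is meromorphic at the real points of `[1, 2]` -/
def Continues (E : WeierstrassCurve F) (H : ℂ → ℂ) : Prop :=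
  (∀ x : ℝ, 1 ≤ x → x ≤ 2 → MeromorphicAt H (x : ℂ)) ∧ ∀ s : ℂ, 2 < s.re → H s = E.LSeries s

/-- the rank of the group `E(F)` -/
noncomputable def rank (E : WeierstrassCurve F) [DecidableEq F] : ℕ :=
  Module.finrank ℤ E.toAffine.Point

/-- The rank form of the conjecture of Birch and Swinnerton-Dyer for `E/F`, with both sides zero: `L(E/F, s)` has a
meromorphic continuation to `ℂ`, and every continuation has the order `0` at `s = 1`, which is the rank of
`E(F)`; and `E(F)` is finite, of an order prime to `p`. -/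
structure RankZero (p : ℕ) (E : WeierstrassCurve F) [DecidableEq F] : Prop where
  exists_continuation : ∃ H : ℂ → ℂ, MeromorphicOn H Set.univ ∧ AnalyticAt ℂ H 1 ∧
    Continues E H ∧ analyticOrderAt H 1 = (rank E : ℕ∞)
  order : ∀ H : ℂ → ℂ, Continues E H → meromorphicOrderAt H 1 = ((rank E : ℤ) : WithTop ℤ) ∧
    (AnalyticAt ℂ H 1 → analyticOrderAt H 1 = (rank E : ℕ∞))
  rank_zero : rank E = 0
  finite : Finite E.toAffine.Point
  prime_to : ¬ p ∣ Nat.card E.toAffine.Point

end conj

section formula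

variable {F : Type} [Field F] [NumberField F]

open scoped Classical in
/-- There is a change of variables `x = u² x' + ⋯`, `y = u³ y' + ⋯` over the completion at `v`, with `u` of
(additive) valuation `n`, to a minimal equation of `E`, and the group of the points of nonsingular reduction
of this equation has index `c`: `c` is the Tamagawa number of `E` at `v`, and the invariant differential of
`E` is `u⁻¹` times the one of the minimal equation, so that the absolute value of the quotient is `N(v)^n`. -/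
def IsLocalData (E : WeierstrassCurve F) (v : HeightOneSpectrum (𝓞 F)) (n : ℤ) (c : ℕ) : Prop :=
  ∃ C : VariableChange (v.adicCompletion F),
    Valued.v (C.u : v.adicCompletion F) = exp (-n) ∧
    IsMinimal (v.adicCompletionIntegers F) (C • E.baseChange (v.adicCompletion F)) ∧
    ∃ H : AddSubgroup (C • E.baseChange (v.adicCompletion F)).toAffine.Point,
      (∀ P, P ∈ H ↔ NonsingRed Valued.v (C • E.baseChange (v.adicCompletion F)) P) ∧ H.index = c

/-- The area of a fundamental parallelogram of the lattice `Λ`. -/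
noncomputable def area (Λ : PeriodPair) : ℝ := |((starRingEnd ℂ) Λ.ω₁ * Λ.ω₂).im|

/-- `Λ` is the lattice of the periods of the invariant differential of `E` at the infinite place `w`: for
`E : y² = x³ + a x + b` and the embedding `τ` of `w` one has `g₂(Λ) = -4 τ(a)`, `g₃(Λ) = -4 τ(b)`. -/
def IsPeriodLattice (E : WeierstrassCurve F) (w : InfinitePlace F) (Λ : PeriodPair) : Prop :=
  Λ.g₂ = w.embedding E.c₄ / 12 ∧ Λ.g₃ = w.embedding E.c₆ / 216

/-- `q = L(E/F, 1) √|d_F| / Ω(E/F)` for the totally complex field `F`, with the global period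
`Ω(E/F) = ∏_v N(v)^(n_v) ∏_{w ∣ ∞} 2 A_w`. -/
def IsQuotient (E : WeierstrassCurve F) (q : ℂ) : Prop :=
  ∃ (H : ℂ → ℂ) (n : HeightOneSpectrum (𝓞 F) → ℤ) (Λ : InfinitePlace F → PeriodPair),
    Continues E H ∧ AnalyticAt ℂ H 1 ∧ (∀ v, ∃ c, IsLocalData E v (n v) c) ∧
    (∀ w, IsPeriodLattice E w (Λ w)) ∧
    q = H 1 * ((Real.sqrt |(discr F : ℝ)| : ℝ) : ℂ) /
      ((∏ᶠ v : HeightOneSpectrum (𝓞 F), (Ideal.absNorm v.asIdeal : ℂ) ^ n v) *
        ((∏ w : InfinitePlace F, (2 * area (Λ w)) : ℝ) : ℂ))

/-- `t` is the product of the Tamagawa numbers. -/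
def IsTamagawa (E : WeierstrassCurve F) (t : ℕ) : Prop :=
  ∃ c : HeightOneSpectrum (𝓞 F) → ℕ, (∀ v, ∃ n, IsLocalData E v n (c v)) ∧ t = ∏ᶠ v, c v

/-- `ord_p(q) = ord_p(#Ш(E/F)[p^∞] t / #E(F)²)`. -/
def Formula (p : ℕ) (E : WeierstrassCurve F) (q : ℚ) (t : ℕ) : Prop :=
  padicValRat p q + 2 * padicValNat p (Nat.card E.toAffine.Point) =
    padicValNat p (Nat.card {x : Sha E // ∃ j : ℕ, p ^ j • x = 0}) + padicValNat p t

/-- The `p`-part of the formula of Birch and Swinnerton-Dyer for `E/F`, of rank zero: the quotient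
`L(E/F, 1) √|d_F| / Ω(E/F)` is a rational number `q ≠ 0`, and
`ord_p(q) = ord_p(#Ш(E/F)[p^∞] t / #E(F)²)` with the product `t` of the Tamagawa numbers. -/
def PPart (p : ℕ) (E : WeierstrassCurve F) : Prop :=
  ∃ (q : ℚ) (t : ℕ), IsQuotient E q ∧ IsTamagawa E t ∧ q ≠ 0 ∧ t ≠ 0 ∧ Formula p E q t

end formula

/-- The terms of the formula are well-defined: at every finite place there is exactly one pair `(n, c)` of local data, with
`c ≠ 0`, and it is `(0, 1)` at all but finitely many places. -/
structure WellPosed {F : Type} [Field F] [NumberField F] (E : WeierstrassCurve F) : Prop where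
  local_data : ∀ v : HeightOneSpectrum (𝓞 F), ∃ (n : ℤ) (c : ℕ), c ≠ 0 ∧
    ∀ (n' : ℤ) (c' : ℕ), IsLocalData E v n' c' ↔ n' = n ∧ c' = c
  almost_all : {v : HeightOneSpectrum (𝓞 F) | ¬ IsLocalData E v 0 1}.Finite

/-- The conclusion for the extension `F/K`: (i) the rank form of the conjecture, both sides being zero, and `E(F)` is
finite of an order prime to `p`; (ii) `Ш(E/F)[p^∞] = 0`; (iii) there is a rational number `u` of `p`-adic valuation zero
with `L(E/F, 1) √|d_F| = (L(E/K, 1) √|d_K|)^[F : K] u`, `q(F) = q(K)^[F : K] u` and `t(F) = t(K)^[F : K] ≠ 0`, and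
the formula at `p` for `E/K` is equivalent to the formula at `p` for `E/F`: the `p`-part of the
formula for `E/K` implies the one for `E/F`, and conversely if `q(K)` is rational. -/
structure Conclusion {K : Type} [Field K] [NumberField K] (p : ℕ) (E : WeierstrassCurve K)
    (F : Type) [Field F] [NumberField F] [Algebra K F] [DecidableEq F] : Prop where
  rank_part : RankZero p (E.baseChange F)
  sha : ∀ (j : ℕ) (x : Sha (E.baseChange F)), p ^ j • x = 0 → x = 0
  value : ∃ u : ℚ, u ≠ 0 ∧ padicValRat p u = 0 ∧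
    (∀ H H₀ : ℂ → ℂ, Continues (E.baseChange F) H → AnalyticAt ℂ H 1 → Continues E H₀ →
      AnalyticAt ℂ H₀ 1 → H₀ 1 ≠ 0 ∧
        H 1 * ((Real.sqrt |(discr F : ℝ)| : ℝ) : ℂ) =
          (H₀ 1 * ((Real.sqrt |(discr K : ℝ)| : ℝ) : ℂ)) ^ Module.finrank K F * u) ∧
    (∀ q : ℂ, IsQuotient E q → ∀ q' : ℂ, IsQuotient (E.baseChange F) q' ↔
      q' = q ^ Module.finrank K F * u) ∧
    (∃ t : ℕ, IsTamagawa E t) ∧
    (∀ t : ℕ, IsTamagawa E t → t ≠ 0 ∧ ∀ t' : ℕ, IsTamagawa (E.baseChange F) t' ↔
      t' = t ^ Module.finrank K F) ∧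
    ∀ (q : ℚ) (t : ℕ), Formula p E q t ↔
      Formula p (E.baseChange F) (q ^ Module.finrank K F * u) (t ^ Module.finrank K F)
  well_posed : WellPosed (E.baseChange F)
  formula : PPart p E → PPart p (E.baseChange F)
  converse : ∀ q : ℚ, IsQuotient E q → PPart p (E.baseChange F) → PPart p E

lemma coef_eq {a e a' e' : ℂ} (h : (1 - Polynomial.C a * Polynomial.X +
    Polynomial.C e * Polynomial.X ^ 2 : Polynomial ℂ) = 1 - Polynomial.C a' * Polynomial.X +
      Polynomial.C e' * Polynomial.X ^ 2) : a = a' ∧ e = e' := by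
  have h1 := congrArg (Polynomial.eval 1) h
  have h2 := congrArg (Polynomial.eval (-1)) h
  simp only [Polynomial.eval_add, Polynomial.eval_sub, Polynomial.eval_one, Polynomial.eval_mul,
    Polynomial.eval_C, Polynomial.eval_X, Polynomial.eval_pow] at h1 h2
  constructor
  · linear_combination (1 / 2 : ℂ) * h2 - (1 / 2 : ℂ) * h1
  · linear_combination (1 / 2 : ℂ) * h1 + (1 / 2 : ℂ) * h2

section proof

variable {K : Type} [Field K] [NumberField K]

lemma nf_of {a b n : 𝓞 K} {c : Ideal (𝓞 K) → ℂ} (hE : IsNewformOf (curve (a : K) (b : K)) n c) :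
    T9h30.BT.IsNF (T9h30.BT.cv (a : K) (b : K)) n c := by
  intro v
  have h1 := hE v
  have h2 := W189.NF.localPolynomial_eq (v.adicCompletionIntegers K)
    ((curve (a : K) (b : K)).baseChange (v.adicCompletion K))
  rw [h2] at h1
  have h3 : W189.NF.aLoc (v.adicCompletionIntegers K)
      ((curve (a : K) (b : K)).baseChange (v.adicCompletion K)) =
      W189.NF.aV (T9h30.BT.cv (a : K) (b : K)) v := rfl
  have h4 : W189.NF.eLoc (v.adicCompletionIntegers K)
      ((curve (a : K) (b : K)).baseChange (v.adicCompletion K)) =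
      W189.NF.eV (T9h30.BT.cv (a : K) (b : K)) v := rfl
  rw [h3, h4, Polynomial.map_add, Polynomial.map_sub, Polynomial.map_one, Polynomial.map_mul,
    Polynomial.map_C, Polynomial.map_X, Polynomial.map_mul, Polynomial.map_C, Polynomial.map_pow,
    Polynomial.map_X] at h1
  obtain ⟨c1, c2⟩ := coef_eq h1
  rw [eq_intCast] at c1 c2
  refine ⟨c1.symm, fun hn => ?_, fun hn => ?_⟩
  · rw [if_pos hn] at c2
    exact_mod_cast c2
  · rw [if_neg hn] at c2
    exact_mod_cast c2

omit [NumberField K] in
/-- the two sides -/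
theorem rankZero_of {F : Type} [Field F] [DecidableEq F] [NumberField F] [Algebra K F] {a b : 𝓞 K}
    {p : ℕ} (h : (Finite (T9h30.BT.cF F a b).toAffine.Point ∧
      ¬ p ∣ Nat.card (T9h30.BT.cF F a b).toAffine.Point) ∧
      ∃ H : ℂ → ℂ, MeromorphicOn H Set.univ ∧ AnalyticAt ℂ H 1 ∧ H 1 ≠ 0 ∧
        ∀ s : ℂ, 2 < s.re → H s = (T9h30.BT.cF F a b).LSeries s) :
    RankZero p ((curve (a : K) (b : K)).baseChange F) := by
  have hcF : (curve (a : K) (b : K)).baseChange F = T9h30.BT.cF F a b := by
    unfold curve T9h30.BT.cF T9h30.BT.cv WeierstrassCurve.baseChange WeierstrassCurve.map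
    simp
  rw [hcF]
  obtain ⟨⟨h1, h2⟩, H₀, hH1, hH2, hH3, hH4⟩ := h
  have hrank : rank (T9h30.BT.cF F a b) = 0 :=
    Module.finrank_eq_zero_of_rank_eq_zero (rank_eq_zero_iff.2 fun x =>
      ⟨Nat.card (T9h30.BT.cF F a b).toAffine.Point,
        by exact_mod_cast Nat.card_pos.ne', by
          rw [natCast_zsmul]
          exact card_nsmul_eq_zero'⟩)
  have hord : meromorphicOrderAt H₀ 1 = 0 := by
    rw [hH2.meromorphicOrderAt_eq, analyticOrderAt_eq_zero.2 (Or.inr hH3)]
    rfl
  refine ⟨⟨H₀, hH1, hH2, ⟨fun x _ _ => hH1 _ (Set.mem_univ _), fun s hs => hH4 s hs⟩, ?_⟩,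
    fun H hH => ?_, hrank, h1, h2⟩
  · rw [hrank, analyticOrderAt_eq_zero.2 (Or.inr hH3)]
    rfl
  · have h1 := T9h30.BT.order_same hH1 hH.1 (fun s hs => by
      rw [hH.2 s hs]
      exact (hH4 s hs).symm)
    rw [hord] at h1
    refine ⟨by rw [hrank]; exact h1, fun hA => ?_⟩
    rw [hrank]
    have h2 := hA.meromorphicOrderAt_eq
    rw [h1] at h2
    have h3 : analyticOrderAt H 1 ≠ ⊤ := by
      intro h
      rw [h] at h2
      exact WithTop.coe_ne_top h2
    obtain ⟨m, hm⟩ := WithTop.ne_top_iff_exists.1 h3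
    rw [← hm] at h2 ⊢
    have h4 : ((0 : ℤ) : WithTop ℤ) = ((m : ℤ) : WithTop ℤ) := h2
    have h5 : m = 0 := by exact_mod_cast h4.symm
    rw [h5]
    rfl

lemma selT {a b : 𝓞 K} {p : ℕ} (h : TrivialSelmer a b p) : T9h30.PG.SelT a b p := by
  intro M _ _ _ _ _ f hf
  exact h M f ⟨hf.coc, hf.tor, hf.unr, hf.loc⟩

omit [NumberField K] in
lemma bc_eq {F : Type} [Field F] [NumberField F] [Algebra K F] {a b : 𝓞 K} :
    (T9h30.BT.cv (a : K) (b : K)).baseChange F = T9h30.BT.cF F a b := by
  unfold T9h30.BT.cF WeierstrassCurve.baseChange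
  rw [T9h30.BT.cv_map]

open Pool.Agent.T9h30.VL in
/-- all the statements -/
theorem conclusion_of [IsPrincipalIdealRing (𝓞 K)] {F : Type} [Field F] [DecidableEq F]
    [NumberField F] [Algebra K F] [IsGalois K F] {a b : 𝓞 K} {p k : ℕ} {σ : K →+* ℂ} {δ : K}
    {n : 𝓞 K} {c : Ideal (𝓞 K) → ℂ} (h : T9h30.PG.Dat σ δ n c a b p)
    (hk : Module.finrank K F = p ^ k) (hsp : Splits F a b p)
    (hc : ∀ s t : F ≃ₐ[K] F, s * t = t * s)
    {T : ((F ≃ₐ[K] F) →* ℂˣ) → Finset (HeightOneSpectrum (𝓞 K))}
    {χ : ((F ≃ₐ[K] F) →* ℂˣ) → 𝓞 K → ℂ} {S : Finset (HeightOneSpectrum (𝓞 K))}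
    (hR : Rcp a b p S T χ) : Conclusion p (curve (a : K) (b : K)) F := by
  classical
  have hp : Fact p.Prime := ⟨h.prime⟩
  obtain ⟨h1, h2, h3, h4, ⟨h5, h6⟩, h7, h8⟩ := T9h30.VL.main2 h hk hsp hc hR
  have e : (curve (a : K) (b : K)).baseChange F = T9h30.BT.cF F a b := bc_eq
  refine ⟨rankZero_of ⟨h1, h2⟩, ?_, ?_, ?_, ?_, ?_⟩
  · rw [e]
    exact h3
  · rw [e]
    exact h4
  · rw [e]
    exact ⟨h5, h6⟩
  · rw [e]
    exact h7
  · rw [e]
    exact h8

end proof

/-- **The `p`-part of the conjecture of Birch and Swinnerton-Dyer over abelian extensions of `p`-power degree.** Let `K` be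
an imaginary quadratic field of class number one, let `E : y² = x³ + a x + b` be an elliptic curve over `K` with the newform
`f`, and let `p` be an odd prime; suppose that `E(K)` has no element of order `p`, that the `p`-Selmer group of `E/K` is
trivial, and that the central value is prime to `p`. Then the conclusion (the rank form of the conjecture,
`Ш(E/F)[p^∞] = 0`, the value `L(E/F, 1)` relative to `K`, and the `p`-part of the formula for `E/F` if it holds
for `E/K`) is true for
(1) the subfields `F` of `K(ζ_m)` of `p`-power degree over `K` in which the places `v ∣ 2p(4a³ + 27b²)` split completely, if `m`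
is prime to `p` and all places `v ∣ m` of `K` are admissible;
(2) if for some prime number `l₀` all places `v ∣ l₀` of `K` are admissible, of norm `1` modulo `p`, then for
every `N` there is a set `P` of prime numbers `l ≡ 1` modulo `p ^ N`, of positive density, such that it is true
for all subfields `F` of `K(ζ_m)` with `t ^ (p ^ N) = 1` for all `t ∈ Gal(F/K)`, for the products `m` of different
elements of `P`;
(3) the abelian extensions `F/K` of `p`-power degree which are the class fields of characters of `K`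
whose conductors are products of different admissible places, if the places `v ∣ 2p(4a³ + 27b²)` split completely
in `F`. -/
theorem result (K : Type) [Field K] [NumberField K] [IsPrincipalIdealRing (𝓞 K)] (σ : K →+* ℂ)
    (δ : K) (hK : IsFieldData K σ δ) (a b : 𝓞 K) (hΔ : 4 * a ^ 3 + 27 * b ^ 2 ≠ 0) (n : 𝓞 K)
    (c : Ideal (𝓞 K) → ℂ) (hf : IsNewform σ δ n c) (hE : IsNewformOf (curve (a : K) (b : K)) n c)
    (p : ℕ) (hp : p.Prime) (hp2 : 2 < p) (hT : NoTorsion a b p) (hS : TrivialSelmer a b p)
    (hval : UnitCentralValue σ δ n c p) :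
    (∀ m : ℕ, m ≠ 0 → Nat.Coprime p m →
      (∀ v : HeightOneSpectrum (𝓞 K), (m : 𝓞 K) ∈ v.asIdeal → Admissible a b p v) →
      ∀ (F : Type) [Field F] [DecidableEq F] [NumberField F] [Algebra K F],
        Nonempty (F →ₐ[K] CyclotomicField m K) → (∃ k : ℕ, Module.finrank K F = p ^ k) →
        Splits F a b p → Conclusion p (curve (a : K) (b : K)) F) ∧
    ((∃ l₀ : ℕ, l₀.Prime ∧ ∀ v : HeightOneSpectrum (𝓞 K), (l₀ : 𝓞 K) ∈ v.asIdeal →
        Ideal.absNorm v.asIdeal % p = 1 ∧ Admissible a b p v) →
      ∀ N : ℕ, ∃ P : Set ℕ, PositiveDensity P ∧ (∀ l ∈ P, l.Prime ∧ l ≡ 1 [MOD p ^ N]) ∧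
        ∀ S : Finset ℕ, (∀ l ∈ S, l ∈ P) →
          ∀ (F : Type) [Field F] [DecidableEq F] [NumberField F] [Algebra K F],
            Nonempty (F →ₐ[K] CyclotomicField (∏ l ∈ S, l) K) →
            (∀ t : F ≃ₐ[K] F, t ^ p ^ N = 1) → Conclusion p (curve (a : K) (b : K)) F) ∧
    ∀ (F : Type) [Field F] [DecidableEq F] [NumberField F] [Algebra K F],
      IsClassField F a b p → Splits F a b p → Conclusion p (curve (a : K) (b : K)) F := by
  have hD : T9h30.PG.Dat σ δ n c a b p := by
    obtain ⟨z, hz, hz'⟩ := hval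
    obtain ⟨ω, hω', hω⟩ := hf.cyclic
    refine ⟨⟨hK.quadratic, hK.imaginary, inferInstance, hK.different⟩,
      ⟨hf.level, hf.zero, hf.one, hf.bound, hf.good, hf.bad, hf.invariant, hf.fricke⟩, hΔ, nf_of hE,
      hp, hp2, ⟨z, ω, hz, hω, hω', hz'⟩, ?_, selT hS⟩
    intro inst T hT0
    have e : inst = fun a b => Classical.propDecidable (a = b) := Subsingleton.elim _ _
    subst e
    exact hT T hT0
  have h1 : ∀ m : ℕ, m ≠ 0 → Nat.Coprime p m →
      (∀ v : HeightOneSpectrum (𝓞 K), (m : 𝓞 K) ∈ v.asIdeal → Admissible a b p v) →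
      ∀ (F : Type) [Field F] [DecidableEq F] [NumberField F] [Algebra K F],
        Nonempty (F →ₐ[K] CyclotomicField m K) → (∃ k : ℕ, Module.finrank K F = p ^ k) →
        Splits F a b p → Conclusion p (curve (a : K) (b : K)) F := by
    intro m hm hpm hadm F _ _ _ _ hFC hk hsp
    have hm' : NeZero m := ⟨hm⟩
    obtain ⟨k, hk⟩ := hk
    obtain ⟨e⟩ := hFC
    let _ : Algebra F (CyclotomicField m K) := e.toRingHom.toAlgebra
    have ht : IsScalarTower K F (CyclotomicField m K) :=
      IsScalarTower.of_algebraMap_eq fun x => (e.commutes x).symm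
    have hab : IsAbelianGalois K (CyclotomicField m K) :=
      IsCyclotomicExtension.isAbelianGalois {m} K (CyclotomicField m K)
    have hab2 : IsAbelianGalois K F := IsAbelianGalois.tower_bot K F (CyclotomicField m K)
    obtain ⟨S, T, χ, hR⟩ := T9h30.VL.exists_Rcp (F := F) hD hpm hadm (CyclotomicField m K) hk
    exact conclusion_of hD hk hsp (fun s t => hab2.is_comm.comm s t) hR
  refine ⟨h1, fun ⟨l₀, hl₀, h₀⟩ N => ?_, fun F _ _ _ _ hF hsp => ?_⟩
  · obtain ⟨ω, t₀, n₀, hB⟩ := T9h30.BT.exists_bs hD.iq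
    obtain ⟨P, hd, g1, g2, g3⟩ := T9h30.PG.exists_set hB hΔ hp hp2 hl₀ h₀ N
    refine ⟨P, hd, fun l hl => ⟨(g1 l hl).1, ?_⟩, fun S hS F _ _ _ _ hFC hexp => ?_⟩
    · have h4 := (g1 l hl).2
      rw [← Nat.cast_one, ZMod.natCast_eq_natCast_iff] at h4
      exact h4
    · obtain ⟨k1, k2, k3, k4, k5⟩ :=
        T9h30.VL.Dat_fam hD (fun l hl => (g1 l hl).1) g2 g3 S hS F hFC hexp
      exact h1 _ k1 k2 k3 F hFC k4 k5
  · classical
    obtain ⟨k, hk⟩ := hF.degree
    have hG := hF.galois
    have hrec : ∀ ψ : (F ≃ₐ[K] F) →* ℂˣ, ∃ (T : Finset (HeightOneSpectrum (𝓞 K))) (χ : 𝓞 K → ℂ),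
        IsCharacter p T χ ∧ (∀ v ∈ T, Admissible a b p v) ∧
        ∀ u : HeightOneSpectrum (𝓞 F), T9h30.BT.lo (K := K) u ∉ T → ∀ t : F ≃ₐ[K] F,
          T9h30.BT.Frb u t → ((ψ t : ℂˣ) : ℂ) = χ (K4H55.BI.gen (T9h30.BT.lo (K := K) u)) := by
      intro ψ
      obtain ⟨T, χ, h1, h2, h3⟩ := hF.reciprocity ((Units.coeHom ℂ).comp ψ)
      exact ⟨T, χ, h1, h2, fun u hu t ht => h3 _ hu ⟨u, rfl⟩ t ht⟩
    choose T χ hχ hT hlaw using hrec
    have hfin : Finite ((F ≃ₐ[K] F) →* ℂˣ) := T9h30.BT.fin_dual' hF.abelian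
    let _ : Fintype ((F ≃ₐ[K] F) →* ℂˣ) := Fintype.ofFinite _
    refine conclusion_of hD hk hsp hF.abelian (T := T) (χ := χ)
      (S := Finset.univ.biUnion T) ⟨fun ψ => ?_, fun ψ => ?_, fun v hv => ?_,
        fun ψ u hu t ht => ?_⟩
    · exact ⟨(hχ ψ).one, (hχ ψ).mul, (hχ ψ).zero, (hχ ψ).periodic, (hχ ψ).units, (hχ ψ).primitive,
        (hχ ψ).order⟩
    · exact Finset.subset_biUnion_of_mem T (Finset.mem_univ ψ)
    · obtain ⟨ψ, -, hψ⟩ := Finset.mem_biUnion.1 hv
      exact hT ψ v hψ
    · exact hlaw ψ u (fun h => hu (Finset.mem_biUnion.2 ⟨ψ, Finset.mem_univ _, h⟩)) t ht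

end Pool.Agent.Results.MP_e996df_nt.PPartAbelianExtensions
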