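import Pool.Agent.T9h30.TP.Fam2
import Pool.Agent.T9h30.BT.Kdu
import Pool.Agent.K4H55.CX.AbL

/-!
# The `2`-part of the conjecture of Birch and Swinnerton-Dyer over abelian `2`-extensions of an imaginary quadratic
# field

`K` is an imaginary quadratic field of class number one, `E : y² = x³ + a x + b` is an elliptic curve over `K`
(which need not be the base change of a curve over `ℚ`, nor have complex multiplication), and `f` is its newform: the
Bianchi newform of weight two over `K` with `L(E/K, s) = L(f, s)`, Euler factor by Euler factor.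

Suppose that `E(K)[2] = 0`, that the `2`-Selmer group of `E/K` is trivial, and that the central value is odd: the value
`Φ(0)` of the primitive `Φ` of the harmonic differential of `f` at the cusp `0` is not in `2 w Λ`, where `Λ ≅ ℤ` is the
group of the values of `Φ` at the cusps `x/m`, `m` prime to the level, and `w = #{u ∈ 𝓞 : u⁴ = 1}`.

A place `v ∤ 2(4a³ + 27b²)` of `K` is admissible if `x³ + a x + b` has no root modulo `v`. For a number field `F ⊇ K` put
`n = [F : K]` and `q(F) = L(E/F, 1) √|d_F| / Ω(E/F)`, with the global period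
`Ω(E/F) = ∏_v N(v)^(n_v) ∏_{w ∣ ∞} 2 A_w`: `N(v)^(n_v)` is the absolute value at `v` of the quotient of `ω = dx/2y` by the
invariant differential of a minimal equation of `E` at `v`, and `A_w` is the area of the parallelogram of the periods of
`ω` for the place `w`. Let `t(F)` be the product of the Tamagawa numbers. The conclusion for `F` is:
(i) `L(E/F, s)` (the `L`-series of Mathlib) has a meromorphic continuation to `ℂ`, and
`ord_{s = 1} L(E/F, s) = rank E(F) = 0`; (ii) `Ш(E/F)[2^∞] = 0`, and `E(F)` is finite of odd order; (iii) there is a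
rational number `u` with odd numerator and denominator with `L(E/F, 1) √|d_F| = (L(E/K, 1) √|d_K|)^n u`,
`q(F) = q(K)^n u`, and `t(F) = t(K)^n ≠ 0`. Hence the `2`-part of the formula, `q ∈ ℚ` and
`ord_2 q = ord_2 (#Ш[2^∞] t / #E²)`, holds for `E/F` if it holds for the one curve `E/K`, and conversely if `q(K)` is
rational.

Theorem. The conclusion is true for all the following extensions `F/K` in which the places `v ∣ 2(4a³ + 27b²)` split
completely:
(1) all multiquadratic extensions (Galois extensions whose group has exponent dividing `2`, of any degree),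
unramified outside of the admissible places;
(2) the subfields `F` of the cyclotomic fields `K(ζ_m)` of degree a power of `2` over `K`, if all places `v ∣ m` are
admissible;
(3) the abelian extensions of degree a power of `2` which are the class fields of characters of `K` whose conductors are
products of different admissible places.
Moreover (4) if all places of `K` above some prime number are admissible, then for every `N` there is a set `P` of prime
numbers `l ≡ 1` modulo `2 ^ N`, of positive density, such that the conclusion is true for all subfields `F` of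
`K(ζ_m)` with `t ^ (2 ^ N) = 1` for all `t ∈ Gal(F/K)`, for the products `m` of different elements of `P`;
(5) there is always a set `P` of primes of `K`, of positive upper density, such that the conclusion is true for all the
fields `F` generated over `K` by square roots of products of two elements of `P`: it holds in a tower of fields of degrees
`1, 2, 4, 8, ...` over `K`, and for each `π₀ ∈ P` over `K(√(π₀ π))` for all `π ∈ P`; the `F` are in general not Galois
extensions of `ℚ`.
In (1), (2), (4), (5) the laws of reciprocity used are proved; in (3) the law of reciprocity is the hypothesis which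
defines the class fields.

The local data `n_v`, `c_v` exist and are unique at all places, and they are `(0, 1)` at almost all places; the quotients
`q` and the products `t` over `F` are unique as well (this is part of the statement: no choice of the minimal equations, of
the bases of the period lattices or of the continuation matters). The period at a complex place is `2 A_w`, as in the
formula of Tate: `∫ |ω ∧ conj ω|` over `E(ℂ)`. The statements hold for every other normalization by a constant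
for each complex place as well: `q(F)` is then divided by `c^n` and `q(K)` by `c`.

The proof (`Pool/Agent/T9h30/TP`, `BT`, `PG`, `VL`). The descent and the order of `L` for (1) are those of
`MP_cd906c_nt/AbelianTwoExtensions`. The `2`-primary part of `Ш(E/F)` is trivial as the Selmer group is: a class of
order `2` is killed going down from `F` to `K`, the order of `Gal(F/K)` being a power of `2`.
For the value: `L(E/F, s) = ∏_ψ L(f ⊗ χ_ψ, s)` exactly, over the characters `ψ` of `Gal(F/K)`, up to the Euler factors at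
the ramified places, which are units at `2` for `s = 1`. At the places `v ∣ 2(4a³ + 27b²)`, which split completely,
one needs `χ_ψ(v) = 1`: in (1) for `v ∣ 2` this is a supplementary law of quadratic reciprocity in `K`, `(π_v/α) = 1` if
`α` is a square in `K_v` for all `v ∣ 2`, which is proved here (`TP/Supp`). For a character `χ` of `2`-power order and
conductor `m` the number `S(χ) = L(f ⊗ χ, 1) τ(χ)` is, in units of `Λ`, congruent to `∏_{v ∣ m} (c_v - 2) Φ(0)` modulo
`w λ`, where `λ` is a prime above `2`, and `c_v` is odd, while `Φ(0) ∉ 2 w Λ`. The product of the `S(χ_ψ)` with the Euler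
factors is invariant under the Galois group of a cyclotomic field; so it is rational, and its quotient by the one for
`K` has odd numerator and denominator. The product of the Gauss sums is `± (∏_ψ N(m_ψ))^(1/2)`, and it is equal to
`√|d_F| / √|d_K|^n` up to a rational number with odd numerator and denominator, although `[F : K]` is even and both
sides can be irrational: the exponent of `N(v)` in `|d_F| / |d_K|^n` is `n - n/e_v`, as the ramification is tame,
and it has the same parity as the number of the `ψ` whose conductor is divisible by `v`. For this the characters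
`ψ`, `ψ⁻¹` are paired, which leaves those of order at most two, and their conductors are known by Kummer theory and
quadratic reciprocity (`TP/Qd1`, `TP/Par`). The periods and the Tamagawa numbers are treated as for odd `p` in
`PPartAbelianExtensions`.

Parts of the proof by other helpers of the team: helper69, helper46 and helper13 (the discriminant), helper51 (inertia
groups and characters), helper31 and helper13 (transport of the local polynomials), helper46 (the completions at
places which split, the local data at good places), helper82 (transport of the local data), helper18 (existence of the local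
data, finite index).
-/

set_option autoImplicit false

open NumberField IsDedekindDomain WeierstrassCurve WithZero Filter Topology
open Pool.Agent.TH841.NF.D (Sha)
open Pool.Agent.Y696 (NonsingRed)

namespace Pool.Agent.Results.MP_e996df_nt.TwoPartExtensions

/-- The curve `E : y² = x³ + a x + b`. -/
def curve {R : Type} [CommRing R] (a b : R) : WeierstrassCurve R := ⟨0, 0, 0, a, b⟩

/-- `K` is an imaginary quadratic field, `σ` is one of its two embeddings in `ℂ`, and `δ` generates the
different of `K`: an `x ∈ K` is in `𝓞` if and only if `Tr(x y / δ) ∈ ℤ` for all `y ∈ 𝓞`. -/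
structure IsFieldData (K : Type) [Field K] [NumberField K] (σ : K →+* ℂ) (δ : K) : Prop where
  quadratic : Module.finrank ℚ K = 2
  imaginary : ∃ x, (starRingEnd ℂ) (σ x) ≠ σ x
  different : ∀ x : K, (∃ a : 𝓞 K, (a : K) = x) ↔
    ∀ y : 𝓞 K, ∃ m : ℤ, Algebra.trace ℚ K (x * y / δ) = m

/-- `h(y) = ∫_0^∞ exp(-1/v - y v) dv = 2 y^(-1/2) K₁(2 √y)`, with the Bessel function `K₁`. -/
noncomputable def bessel (y : ℝ) : ℝ := ∫ v in Set.Ioi (0 : ℝ), Real.exp (-(1 / v) - y * v)

/-- The additive character `e(z) = exp(2πi (z/δ + conj (z/δ)))` of `ℂ`, trivial on `𝓞`. -/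
noncomputable def addChar (δ z : ℂ) : ℂ :=
  Complex.exp (2 * Real.pi * Complex.I * (z / δ + (starRingEnd ℂ) (z / δ)))

/-- The denominator `|c z + d|² + |c|² t²` of the action of the matrix `(a, b; c, d)` on the hyperbolic
space `{(z, t) : z ∈ ℂ, t > 0}`. -/
noncomputable def den (c d z : ℂ) (t : ℝ) : ℝ := ‖c * z + d‖ ^ 2 + ‖c‖ ^ 2 * t ^ 2

/-- The first coordinate `((a z + b) conj (c z + d) + a conj(c) t²) / (|c z + d|² + |c|² t²)` of the image
of `(z, t)` under the matrix `(a, b; c, d)`. -/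
noncomputable def actZ (a b c d z : ℂ) (t : ℝ) : ℂ :=
  ((a * z + b) * (starRingEnd ℂ) (c * z + d) + a * (starRingEnd ℂ) c * (t : ℂ) ^ 2) /
    (den c d z t : ℂ)

/-- The second coordinate, for a matrix of determinant one; in general it is `|ad - bc|` times this. -/
noncomputable def actT (c d z : ℂ) (t : ℝ) : ℝ := t / den c d z t

section field
variable {K : Type} [Field K] [NumberField K]

/-- The function `Φ(z, t) = ∑_{x ∈ 𝓞} c((x)) t² h(N(x) (2πt/|δ|)²) e(x z)
  = (|δ|/π) ∑_{x ≠ 0} (c((x))/|x|) t K₁(4π|x|t/|δ|) e(x z)` on the hyperbolic space, with the coefficients `c`.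
Up to a constant factor it is the primitive, zero at the cusp `∞`, of the harmonic differential of the
form of weight two with the Fourier coefficients `c`: its derivative by `t` is
`-4 ∑_{x ≠ 0} c((x)) t K₀(4π|x|t/|δ|) e(x z)`. -/
noncomputable def primitive (σ : K →+* ℂ) (δ : K) (c : Ideal (𝓞 K) → ℂ) (z : ℂ) (t : ℝ) : ℂ :=
  ∑' x : 𝓞 K, c (Ideal.span {x}) * ((t ^ 2 * bessel (Ideal.absNorm (Ideal.span {x}) *
    (2 * Real.pi * t / ‖σ δ‖) ^ 2) : ℝ) : ℂ) * addChar (σ δ) (σ x * z)

/-- The group `Λ` generated by the values of the primitive `Φ` at the cusps `x/m`, `m ≠ 0` prime to the level (that is,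
by the limits of `Φ(x/m, t)` for `t → 0`). -/
def Lam (σ : K →+* ℂ) (δ : K) (n : 𝓞 K) (c : Ideal (𝓞 K) → ℂ) : AddSubgroup ℂ :=
  AddSubgroup.closure {z | ∃ x m : 𝓞 K, m ≠ 0 ∧ IsCoprime m n ∧
    Tendsto (fun t => primitive σ δ c (σ x / σ m) t) (𝓝[>] 0) (𝓝 z)}

/-- The numbers `c(I)` are the Hecke eigenvalues of a Bianchi newform `f` of weight two, level `(n)` and
trivial character over `K`, with rational eigenvalues: they satisfy `c(𝓞) = 1`, the (trivial) bound `c(I) = O(N(I))`
and the Hecke relations `c(v I) = c(v) c(I)` for `v ∤ I`, `c(v² I) = c(v) c(v I) - N(v) c(I)` for the primes `v ∤ n`, and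
`c(v I) = c(v) c(I)` for `v ∣ n`; the differential `dΦ` of the function `Φ` with the coefficients `c` is
invariant under `Γ₀(n)`, that is, `Φ(γ P) - Φ(P)` is a constant for every `γ ∈ Γ₀(n)`; `dΦ` is an
eigenform, with the eigenvalue `±1`, of the Fricke involution `W = (0, -1; n, 0)`; and the group `Λ` of the values of `Φ` at
cusps is cyclic (this is so for rational eigenvalues, by multiplicity one and the theorem of Manin, Drinfeld and
Kurčanov: the quotient of `H₁(Γ₀(n), cusps; ℤ)` which belongs to `f` has rank one). -/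
structure IsNewform (σ : K →+* ℂ) (δ : K) (n : 𝓞 K) (c : Ideal (𝓞 K) → ℂ) : Prop where
  level : n ≠ 0
  zero : c ⊥ = 0
  one : c ⊤ = 1
  bound : ∃ C : ℝ, ∀ I, ‖c I‖ ≤ C * Ideal.absNorm I
  good : ∀ v : HeightOneSpectrum (𝓞 K), n ∉ v.asIdeal → ∀ I,
    (¬ v.asIdeal ∣ I → c (v.asIdeal * I) = c v.asIdeal * c I) ∧
    c (v.asIdeal * (v.asIdeal * I)) = c v.asIdeal * c (v.asIdeal * I) -
      Ideal.absNorm v.asIdeal * c I
  bad : ∀ v : HeightOneSpectrum (𝓞 K), n ∈ v.asIdeal → ∀ I,
    c (v.asIdeal * I) = c v.asIdeal * c I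
  invariant : ∃ κ : Matrix.SpecialLinearGroup (Fin 2) (𝓞 K) → ℂ,
    ∀ γ : Matrix.SpecialLinearGroup (Fin 2) (𝓞 K), n ∣ γ.1 1 0 → ∀ (z : ℂ) (t : ℝ), 0 < t →
      primitive σ δ c (actZ (σ (γ.1 0 0)) (σ (γ.1 0 1)) (σ (γ.1 1 0)) (σ (γ.1 1 1)) z t)
        (actT (σ (γ.1 1 0)) (σ (γ.1 1 1)) z t) = primitive σ δ c z t + κ γ
  fricke : ∃ w κ : ℂ, w * w = 1 ∧ ∀ (z : ℂ) (t : ℝ), 0 < t →
    primitive σ δ c (actZ 0 (-1) (σ n) 0 z t) (‖σ n‖ * actT (σ n) 0 z t) =
      -w * primitive σ δ c z t + κ
  cyclic : ∃ ω ∈ Lam σ δ n c, ∀ l ∈ Lam σ δ n c, ∃ j : ℤ, l = j * ω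

/-- The number `w` of the `u ∈ 𝓞` with `u⁴ = 1`: it is `4` for `K = ℚ(i)` and `2` otherwise. -/
noncomputable def fourth (K : Type) [Field K] : ℕ := Nat.card {u : 𝓞 K // u ^ 4 = 1}

/-- The central value is odd: `Φ(0)`, the limit of `Φ(0, t)` for `t → 0`, is not in `2 w Λ`. -/
def OddCentralValue (σ : K →+* ℂ) (δ : K) (n : 𝓞 K) (c : Ideal (𝓞 K) → ℂ) : Prop :=
  ∃ z₀ : ℂ, Tendsto (fun t => primitive σ δ c 0 t) (𝓝[>] 0) (𝓝 z₀) ∧
    ∀ y ∈ Lam σ δ n c, z₀ ≠ 2 * fourth K * y

open Classical in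
/-- `f` is the newform of the curve `E`, that is, `L(E/K, s) = L(f, s)`, Euler factor by Euler factor: at every
finite place `v` of `K` the polynomial of the local factor of `E` (that of Mathlib) is
`1 - c(v) X + N(v) X²` if `v ∤ n`, and `1 - c(v) X` if `v ∣ n`. -/
def IsNewformOf (E : WeierstrassCurve K) (n : 𝓞 K) (c : Ideal (𝓞 K) → ℂ) : Prop :=
  ∀ v : HeightOneSpectrum (𝓞 K),
    ((E.baseChange (v.adicCompletion K)).localPolynomial (v.adicCompletionIntegers K)).map
      (Int.castRingHom ℂ) = 1 - Polynomial.C (c v.asIdeal) * Polynomial.X +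
        Polynomial.C (if n ∈ v.asIdeal then 0 else (Ideal.absNorm v.asIdeal : ℂ)) * Polynomial.X ^ 2

/-- The group `E(M)`, for an extension `M` of `K` and the curve `E : y² = x³ + a x + b` over `K`. -/
abbrev Pts (a b : K) (M : Type) [Field M] [Algebra K M] : Type :=
  ((curve a b).baseChange M).toAffine.Point

/-- The homomorphism `E(M) → E(M')` given by a homomorphism `M → M'` over `K`. -/
noncomputable def push {a b : K} {M M' : Type} [Field M] [Field M'] [Algebra K M] [Algebra K M']
    [DecidableEq M] [DecidableEq M'] (f : M →ₐ[K] M') : Pts a b M →+ Pts a b M' :=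
  WeierstrassCurve.Affine.Point.map (W' := (curve a b).toAffine) (S := K) f

/-- An algebraic closure of the completion `K_v`. -/
abbrev Clo (v : HeightOneSpectrum (𝓞 K)) : Type := AlgebraicClosure (v.adicCompletion K)

open Classical in
/-- `f : Gal(M/K) → E(M)` is a cocycle with values of order `2` whose class in `H¹(K, E[2])` is in the `2`-Selmer
group of `E/K`, `M/K` being a finite Galois extension: it is zero on the inertia groups of the places
`w ∤ 2(4a³ + 27b²)` of `M`, and at the places `v ∣ 2(4a³ + 27b²)` of `K` its class becomes trivial in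
`H¹(K_v, E)`: for every embedding `ι` of `M` in the algebraic closure of `K_v` there is a point `P` over this closure with
`ι(f(s)) = τ(P) - P` for all `τ` in the Galois group of `K_v`, where `s` is the restriction of `τ` to `M`. -/
structure IsSelmerCocycle (a b : 𝓞 K) {M : Type} [Field M] [NumberField M] [Algebra K M]
    [DecidableEq M] (f : (M ≃ₐ[K] M) → Pts (a : K) (b : K) M) : Prop where
  cocycle : ∀ g h : M ≃ₐ[K] M, f (g * h) = f g + push (g : M →ₐ[K] M) (f h)
  torsion : ∀ g : M ≃ₐ[K] M, 2 • f g = 0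
  unramified : ∀ w : HeightOneSpectrum (𝓞 M),
    algebraMap (𝓞 K) (𝓞 M) (2 * (4 * a ^ 3 + 27 * b ^ 2)) ∉ w.asIdeal →
      ∀ g : M ≃ₐ[K] M, (∀ x : 𝓞 M, g • x - x ∈ w.asIdeal) → f g = 0
  localCondition : ∀ v : HeightOneSpectrum (𝓞 K), 2 * (4 * a ^ 3 + 27 * b ^ 2) ∈ v.asIdeal →
    ∀ ι : M →ₐ[K] Clo v, ∃ P : Pts (a : K) (b : K) (Clo v),
      ∀ (τ : Clo v ≃ₐ[v.adicCompletion K] Clo v) (s : M ≃ₐ[K] M), (∀ x, τ (ι x) = ι (s x)) →
        push ι (f s) = push (τ.restrictScalars K : Clo v →ₐ[K] Clo v) P - P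

/-- The `2`-Selmer group of `E/K` is trivial: all the cocycles in it, for all finite Galois extensions `M/K`, are the
coboundaries `g ↦ g(T) - T` of points `T` of `E(M)` of order `2`. -/
def TrivialSelmer (a b : 𝓞 K) : Prop :=
  ∀ (M : Type) [Field M] [DecidableEq M] [NumberField M] [Algebra K M] [IsGalois K M]
    (f : (M ≃ₐ[K] M) → Pts (a : K) (b : K) M), IsSelmerCocycle a b f →
      ∃ T : Pts (a : K) (b : K) M, 2 • T = 0 ∧ ∀ g : M ≃ₐ[K] M, f g = push (g : M →ₐ[K] M) T - T

/-- The admissible places: `v ∤ 2(4a³ + 27b²)`, and `x³ + a x + b` has no root modulo `v`, that is, the number of the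
points of `E` over the residue field of `v` is odd. -/
def Admissible (a b : 𝓞 K) (v : HeightOneSpectrum (𝓞 K)) : Prop :=
  2 * (4 * a ^ 3 + 27 * b ^ 2) ∉ v.asIdeal ∧ ∀ x : 𝓞 K, x ^ 3 + a * x + b ∉ v.asIdeal

/-- `χ` is a character of `K` of `2`-power order and of conductor `∏_{v ∈ T} v`, as a function on `𝓞` (`K` has class
number one): a primitive character modulo the product of the `v ∈ T`, trivial on the units, and zero on the `x` which
are not prime to the conductor. -/
structure IsCharacter (T : Finset (HeightOneSpectrum (𝓞 K))) (χ : 𝓞 K → ℂ) : Prop where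
  one : χ 1 = 1
  mul : ∀ x y, χ (x * y) = χ x * χ y
  zero : ∀ x, χ x = 0 ↔ ∃ v ∈ T, x ∈ v.asIdeal
  periodic : ∀ x y, (∀ v ∈ T, x - y ∈ v.asIdeal) → χ x = χ y
  units : ∀ u, IsUnit u → χ u = 1
  primitive : ∀ v ∈ T, ∃ x, (∀ v' ∈ T, v' ≠ v → x - 1 ∈ v'.asIdeal) ∧ χ x ≠ 0 ∧ χ x ≠ 1
  order : ∃ k : ℕ, ∀ x, χ x ≠ 0 → χ x ^ 2 ^ k = 1

/-- The set `P` of prime numbers has positive lower density: there is a `d > 0` such that for all large `X` at least
`d π(X)` elements of `P` are at most `X`. -/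
def PositiveDensity (P : Set ℕ) : Prop :=
  ∃ d : ℝ, 0 < d ∧ ∀ᶠ X : ℕ in atTop, d * Nat.primeCounting X ≤ {l : ℕ | l ≤ X ∧ l ∈ P}.ncard

/-- The set `P` of elements of `𝓞` has positive upper density in comparison with the prime numbers: there is a `d > 0` such that
for infinitely many `N` at least `d π(N)` elements of `P` have a norm at most `N`. -/
def PositiveUpperDensity (P : Set (𝓞 K)) : Prop :=
  ∃ d : ℝ, 0 < d ∧ ∃ᶠ N : ℕ in atTop,
    d * Nat.primeCounting N ≤ {π | π ∈ P ∧ Ideal.absNorm (Ideal.span {π}) ≤ N}.ncard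

section extension

variable (F : Type) [Field F] [NumberField F] [Algebra K F]

/-- The places `u` of `F` above `v`. -/
def Above (v : HeightOneSpectrum (𝓞 K)) : Type :=
  {u : HeightOneSpectrum (𝓞 F) // u.asIdeal.comap (algebraMap (𝓞 K) (𝓞 F)) = v.asIdeal}

/-- The places `v ∣ 2(4a³ + 27b²)` of `K` split completely in the Galois extension `F/K` (there is an embedding of
`F` in `K_v`). -/
def Splits (a b : 𝓞 K) : Prop :=
  ∀ v : HeightOneSpectrum (𝓞 K), 2 * (4 * a ^ 3 + 27 * b ^ 2) ∈ v.asIdeal →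
    Nonempty (F →ₐ[K] v.adicCompletion K)

/-- `F/K` is a finite multiquadratic extension (Galois with `t² = 1` for all `t ∈ Gal(F/K)`), unramified outside of the
admissible places of `K` and of the places `v ∣ 2(4a³ + 27b²)`. -/
structure IsMultiquadratic (a b : 𝓞 K) : Prop where
  galois : IsGalois K F
  square : ∀ t : F ≃ₐ[K] F, t * t = 1
  unramified : ∀ v : HeightOneSpectrum (𝓞 K), 2 * (4 * a ^ 3 + 27 * b ^ 2) ∉ v.asIdeal →
    ¬ Admissible a b v → ∀ u : Above F v, ∀ x : K,
      u.1.valuation F (algebraMap K F x) = v.valuation K x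

/-- `F` is the class field of a group of characters of `K` of `2`-power order, of conductors which are products of
different admissible places: `F/K` is an abelian extension of `2`-power degree, and for each of the characters `ψ` of
its Galois group there is such a character `χ` of `K`, of conductor `∏_{v ∈ T} v`, with the law of reciprocity:
`ψ(t) = χ(v)` for all places `v ∉ T` of `K` and all Frobenius automorphisms `t ∈ Gal(F/K)` at places of `F` above
`v`. -/
structure IsClassField [IsPrincipalIdealRing (𝓞 K)] (a b : 𝓞 K) : Prop where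
  galois : IsGalois K F
  degree : ∃ k : ℕ, Module.finrank K F = 2 ^ k
  abelian : ∀ s t : F ≃ₐ[K] F, s * t = t * s
  reciprocity : ∀ ψ : (F ≃ₐ[K] F) →* ℂ, ∃ (T : Finset (HeightOneSpectrum (𝓞 K))) (χ : 𝓞 K → ℂ),
    IsCharacter T χ ∧ (∀ v ∈ T, Admissible a b v) ∧
    ∀ v : HeightOneSpectrum (𝓞 K), v ∉ T → ∀ (u : Above F v) (t : F ≃ₐ[K] F),
      (∀ x : 𝓞 F, t • x - x ^ Ideal.absNorm v.asIdeal ∈ u.1.asIdeal) →
      ψ t = χ (Submodule.IsPrincipal.generator v.asIdeal)

end extension

end field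

section conj

variable {F : Type} [Field F] [NumberField F]

/-- `H` is equal to `L(E/F, s)` for `Re s > 2` and it is meromorphic at the real points of `[1, 2]` -/
def Continues (E : WeierstrassCurve F) (H : ℂ → ℂ) : Prop :=
  (∀ x : ℝ, 1 ≤ x → x ≤ 2 → MeromorphicAt H (x : ℂ)) ∧ ∀ s : ℂ, 2 < s.re → H s = E.LSeries s

/-- the rank of the group `E(F)` -/
noncomputable def rank (E : WeierstrassCurve F) [DecidableEq F] : ℕ :=
  Module.finrank ℤ E.toAffine.Point

/-- The rank form of the conjecture of Birch and Swinnerton-Dyer for `E/F`, with both sides zero: `L(E/F, s)` has a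
meromorphic continuation to `ℂ`, and every continuation has the order `0` at `s = 1`, which is the rank of
`E(F)`; and `E(F)` is finite, of odd order. -/
structure RankZero (E : WeierstrassCurve F) [DecidableEq F] : Prop where
  exists_continuation : ∃ H : ℂ → ℂ, MeromorphicOn H Set.univ ∧ AnalyticAt ℂ H 1 ∧
    Continues E H ∧ analyticOrderAt H 1 = (rank E : ℕ∞)
  order : ∀ H : ℂ → ℂ, Continues E H → meromorphicOrderAt H 1 = ((rank E : ℤ) : WithTop ℤ) ∧
    (AnalyticAt ℂ H 1 → analyticOrderAt H 1 = (rank E : ℕ∞))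
  rank_zero : rank E = 0
  finite : Finite E.toAffine.Point
  odd : ¬ 2 ∣ Nat.card E.toAffine.Point

end conj

section formula

variable {F : Type} [Field F] [NumberField F]

open scoped Classical in
/-- There is a change of variables `x = u² x' + ⋯`, `y = u³ y' + ⋯` over the completion at `v`, with `u` of
(additive) valuation `n`, to a minimal equation of `E`, and the group of the points of nonsingular reduction
of this equation has index `c`: `c` is the Tamagawa number of `E` at `v`, and the invariant differential of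
`E` is `u⁻¹` times the one of the minimal equation, so that the absolute value of the quotient is `N(v)^n`. -/
def IsLocalData (E : WeierstrassCurve F) (v : HeightOneSpectrum (𝓞 F)) (n : ℤ) (c : ℕ) : Prop :=
  ∃ C : VariableChange (v.adicCompletion F),
    Valued.v (C.u : v.adicCompletion F) = exp (-n) ∧
    IsMinimal (v.adicCompletionIntegers F) (C • E.baseChange (v.adicCompletion F)) ∧
    ∃ H : AddSubgroup (C • E.baseChange (v.adicCompletion F)).toAffine.Point,
      (∀ P, P ∈ H ↔ NonsingRed Valued.v (C • E.baseChange (v.adicCompletion F)) P) ∧ H.index = c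

/-- The area of a fundamental parallelogram of the lattice `Λ`. -/
noncomputable def area (Λ : PeriodPair) : ℝ := |((starRingEnd ℂ) Λ.ω₁ * Λ.ω₂).im|

/-- `Λ` is the lattice of the periods of the invariant differential of `E` at the infinite place `w`: for
`E : y² = x³ + a x + b` and the embedding `τ` of `w` one has `g₂(Λ) = -4 τ(a)`, `g₃(Λ) = -4 τ(b)`. -/
def IsPeriodLattice (E : WeierstrassCurve F) (w : InfinitePlace F) (Λ : PeriodPair) : Prop :=
  Λ.g₂ = w.embedding E.c₄ / 12 ∧ Λ.g₃ = w.embedding E.c₆ / 216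

/-- `q = L(E/F, 1) √|d_F| / Ω(E/F)` for the totally complex field `F`, with the global period
`Ω(E/F) = ∏_v N(v)^(n_v) ∏_{w ∣ ∞} 2 A_w`. -/
def IsQuotient (E : WeierstrassCurve F) (q : ℂ) : Prop :=
  ∃ (H : ℂ → ℂ) (n : HeightOneSpectrum (𝓞 F) → ℤ) (Λ : InfinitePlace F → PeriodPair),
    Continues E H ∧ AnalyticAt ℂ H 1 ∧ (∀ v, ∃ c, IsLocalData E v (n v) c) ∧
    (∀ w, IsPeriodLattice E w (Λ w)) ∧
    q = H 1 * ((Real.sqrt |(discr F : ℝ)| : ℝ) : ℂ) /
      ((∏ᶠ v : HeightOneSpectrum (𝓞 F), (Ideal.absNorm v.asIdeal : ℂ) ^ n v) *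
        ((∏ w : InfinitePlace F, (2 * area (Λ w)) : ℝ) : ℂ))

/-- `t` is the product of the Tamagawa numbers. -/
def IsTamagawa (E : WeierstrassCurve F) (t : ℕ) : Prop :=
  ∃ c : HeightOneSpectrum (𝓞 F) → ℕ, (∀ v, ∃ n, IsLocalData E v n (c v)) ∧ t = ∏ᶠ v, c v

/-- `ord_2(q) = ord_2(#Ш(E/F)[2^∞] t / #E(F)²)`. -/
def Formula (E : WeierstrassCurve F) (q : ℚ) (t : ℕ) : Prop :=
  padicValRat 2 q + 2 * padicValNat 2 (Nat.card E.toAffine.Point) =
    padicValNat 2 (Nat.card {x : Sha E // ∃ j : ℕ, 2 ^ j • x = 0}) + padicValNat 2 t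

/-- The `2`-part of the formula of Birch and Swinnerton-Dyer for `E/F`, of rank zero: the quotient
`L(E/F, 1) √|d_F| / Ω(E/F)` is a rational number `q ≠ 0`, and
`ord_2(q) = ord_2(#Ш(E/F)[2^∞] t / #E(F)²)` with the product `t` of the Tamagawa numbers. -/
def TwoPart (E : WeierstrassCurve F) : Prop :=
  ∃ (q : ℚ) (t : ℕ), IsQuotient E q ∧ IsTamagawa E t ∧ q ≠ 0 ∧ t ≠ 0 ∧ Formula E q t

end formula

/-- The terms of the formula are well-defined: at every finite place there is exactly one pair `(n, c)` of local data, with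
`c ≠ 0`, and it is `(0, 1)` at all but finitely many places. -/
structure WellPosed {F : Type} [Field F] [NumberField F] (E : WeierstrassCurve F) : Prop where
  local_data : ∀ v : HeightOneSpectrum (𝓞 F), ∃ (n : ℤ) (c : ℕ), c ≠ 0 ∧
    ∀ (n' : ℤ) (c' : ℕ), IsLocalData E v n' c' ↔ n' = n ∧ c' = c
  almost_all : {v : HeightOneSpectrum (𝓞 F) | ¬ IsLocalData E v 0 1}.Finite

/-- The conclusion for the extension `F/K`: (i) the rank form of the conjecture, both sides being zero, and `E(F)` is
finite of odd order; (ii) `Ш(E/F)[2^∞] = 0`; (iii) there is a rational number `u` with odd numerator and denominator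
with `L(E/F, 1) √|d_F| = (L(E/K, 1) √|d_K|)^[F : K] u`, `q(F) = q(K)^[F : K] u` and `t(F) = t(K)^[F : K] ≠ 0`, and
the formula at `2` for `E/K` is equivalent to the formula at `2` for `E/F`: the `2`-part of the
formula for `E/K` implies the one for `E/F`, and conversely if `q(K)` is rational. -/
structure Conclusion {K : Type} [Field K] [NumberField K] (E : WeierstrassCurve K)
    (F : Type) [Field F] [NumberField F] [Algebra K F] [DecidableEq F] : Prop where
  rank_part : RankZero (E.baseChange F)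
  sha : ∀ (j : ℕ) (x : Sha (E.baseChange F)), 2 ^ j • x = 0 → x = 0
  value : ∃ u : ℚ, u ≠ 0 ∧ padicValRat 2 u = 0 ∧
    (∀ H H₀ : ℂ → ℂ, Continues (E.baseChange F) H → AnalyticAt ℂ H 1 → Continues E H₀ →
      AnalyticAt ℂ H₀ 1 → H₀ 1 ≠ 0 ∧
        H 1 * ((Real.sqrt |(discr F : ℝ)| : ℝ) : ℂ) =
          (H₀ 1 * ((Real.sqrt |(discr K : ℝ)| : ℝ) : ℂ)) ^ Module.finrank K F * u) ∧
    (∀ q : ℂ, IsQuotient E q → ∀ q' : ℂ, IsQuotient (E.baseChange F) q' ↔
      q' = q ^ Module.finrank K F * u) ∧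
    (∃ t : ℕ, IsTamagawa E t) ∧
    (∀ t : ℕ, IsTamagawa E t → t ≠ 0 ∧ ∀ t' : ℕ, IsTamagawa (E.baseChange F) t' ↔
      t' = t ^ Module.finrank K F) ∧
    ∀ (q : ℚ) (t : ℕ), Formula E q t ↔
      Formula (E.baseChange F) (q ^ Module.finrank K F * u) (t ^ Module.finrank K F)
  well_posed : WellPosed (E.baseChange F)
  formula : TwoPart E → TwoPart (E.baseChange F)
  converse : ∀ q : ℚ, IsQuotient E q → TwoPart (E.baseChange F) → TwoPart E

lemma coef_eq {a e a' e' : ℂ} (h : (1 - Polynomial.C a * Polynomial.X +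
    Polynomial.C e * Polynomial.X ^ 2 : Polynomial ℂ) = 1 - Polynomial.C a' * Polynomial.X +
      Polynomial.C e' * Polynomial.X ^ 2) : a = a' ∧ e = e' := by
  have h1 := congrArg (Polynomial.eval 1) h
  have h2 := congrArg (Polynomial.eval (-1)) h
  simp only [Polynomial.eval_add, Polynomial.eval_sub, Polynomial.eval_one, Polynomial.eval_mul,
    Polynomial.eval_C, Polynomial.eval_X, Polynomial.eval_pow] at h1 h2
  constructor
  · linear_combination (1 / 2 : ℂ) * h2 - (1 / 2 : ℂ) * h1
  · linear_combination (1 / 2 : ℂ) * h1 + (1 / 2 : ℂ) * h2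

section proof

variable {K : Type} [Field K] [NumberField K]

lemma nf_of {a b n : 𝓞 K} {c : Ideal (𝓞 K) → ℂ} (hE : IsNewformOf (curve (a : K) (b : K)) n c) :
    T9h30.BT.IsNF (T9h30.BT.cv (a : K) (b : K)) n c := by
  intro v
  have h1 := hE v
  have h2 := W189.NF.localPolynomial_eq (v.adicCompletionIntegers K)
    ((curve (a : K) (b : K)).baseChange (v.adicCompletion K))
  rw [h2] at h1
  have h3 : W189.NF.aLoc (v.adicCompletionIntegers K)
      ((curve (a : K) (b : K)).baseChange (v.adicCompletion K)) =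
      W189.NF.aV (T9h30.BT.cv (a : K) (b : K)) v := rfl
  have h4 : W189.NF.eLoc (v.adicCompletionIntegers K)
      ((curve (a : K) (b : K)).baseChange (v.adicCompletion K)) =
      W189.NF.eV (T9h30.BT.cv (a : K) (b : K)) v := rfl
  rw [h3, h4, Polynomial.map_add, Polynomial.map_sub, Polynomial.map_one, Polynomial.map_mul,
    Polynomial.map_C, Polynomial.map_X, Polynomial.map_mul, Polynomial.map_C, Polynomial.map_pow,
    Polynomial.map_X] at h1
  obtain ⟨c1, c2⟩ := coef_eq h1
  rw [eq_intCast] at c1 c2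
  refine ⟨c1.symm, fun hn => ?_, fun hn => ?_⟩
  · rw [if_pos hn] at c2
    exact_mod_cast c2
  · rw [if_neg hn] at c2
    exact_mod_cast c2

omit [NumberField K] in
/-- the two sides -/
theorem rankZero_of {F : Type} [Field F] [DecidableEq F] [NumberField F] [Algebra K F] {a b : 𝓞 K}
    (h : (Finite (T9h30.BT.cF F a b).toAffine.Point ∧
      ¬ 2 ∣ Nat.card (T9h30.BT.cF F a b).toAffine.Point) ∧
      ∃ H : ℂ → ℂ, MeromorphicOn H Set.univ ∧ AnalyticAt ℂ H 1 ∧ H 1 ≠ 0 ∧
        ∀ s : ℂ, 2 < s.re → H s = (T9h30.BT.cF F a b).LSeries s) :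
    RankZero ((curve (a : K) (b : K)).baseChange F) := by
  have hcF : (curve (a : K) (b : K)).baseChange F = T9h30.BT.cF F a b := by
    unfold curve T9h30.BT.cF T9h30.BT.cv WeierstrassCurve.baseChange WeierstrassCurve.map
    simp
  rw [hcF]
  obtain ⟨⟨h1, h2⟩, H₀, hH1, hH2, hH3, hH4⟩ := h
  have hrank : rank (T9h30.BT.cF F a b) = 0 :=
    Module.finrank_eq_zero_of_rank_eq_zero (rank_eq_zero_iff.2 fun x =>
      ⟨Nat.card (T9h30.BT.cF F a b).toAffine.Point,
        by exact_mod_cast Nat.card_pos.ne', by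
          rw [natCast_zsmul]
          exact card_nsmul_eq_zero'⟩)
  have hord : meromorphicOrderAt H₀ 1 = 0 := by
    rw [hH2.meromorphicOrderAt_eq, analyticOrderAt_eq_zero.2 (Or.inr hH3)]
    rfl
  refine ⟨⟨H₀, hH1, hH2, ⟨fun x _ _ => hH1 _ (Set.mem_univ _), fun s hs => hH4 s hs⟩, ?_⟩,
    fun H hH => ?_, hrank, h1, h2⟩
  · rw [hrank, analyticOrderAt_eq_zero.2 (Or.inr hH3)]
    rfl
  · have h1 := T9h30.BT.order_same hH1 hH.1 (fun s hs => by
      rw [hH.2 s hs]
      exact (hH4 s hs).symm)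
    rw [hord] at h1
    refine ⟨by rw [hrank]; exact h1, fun hA => ?_⟩
    rw [hrank]
    have h2 := hA.meromorphicOrderAt_eq
    rw [h1] at h2
    have h3 : analyticOrderAt H 1 ≠ ⊤ := by
      intro h
      rw [h] at h2
      exact WithTop.coe_ne_top h2
    obtain ⟨m, hm⟩ := WithTop.ne_top_iff_exists.1 h3
    rw [← hm] at h2 ⊢
    have h4 : ((0 : ℤ) : WithTop ℤ) = ((m : ℤ) : WithTop ℤ) := h2
    have h5 : m = 0 := by exact_mod_cast h4.symm
    rw [h5]
    rfl

lemma two_mem' {R : Type} [CommRing R] {I : Ideal R} (hI : I.IsPrime) {x : R}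
    (h : 2 * ((2 : ℕ) : R) * x ∈ I) : 2 * x ∈ I := by
  rcases hI.mem_or_mem h with h1 | h1
  · rcases hI.mem_or_mem h1 with h2 | h2
    · exact I.mul_mem_right _ h2
    · exact I.mul_mem_right _ (by exact_mod_cast h2)
  · exact I.mul_mem_left _ h1

lemma noTors {a b : 𝓞 K} (hroot : ∀ x : K, x ^ 3 + a * x + b ≠ 0) [DecidableEq K]
    (T : T9h30.PG.EP (a : K) (b : K) K) (hT : 2 • T = 0) : T = 0 := by
  rw [two_nsmul, add_eq_zero_iff_eq_neg] at hT
  rcases T with _ | ⟨x, y, h⟩
  · rfl
  · exfalso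
    rw [WeierstrassCurve.Affine.Point.neg_some] at hT
    have h1 : y = _ := (WeierstrassCurve.Affine.Point.some.inj hT).2
    have h2 := (WeierstrassCurve.Affine.equation_iff _ _).1 h.1
    simp only [WeierstrassCurve.Affine.negY, T9h30.BT.cv, WeierstrassCurve.baseChange,
      WeierstrassCurve.map, map_zero, Algebra.algebraMap_self, RingHom.id_apply] at h1 h2
    have hy : y = 0 := by
      have : (2 : K) * y = 0 := by linear_combination h1
      exact (mul_eq_zero.1 this).resolve_left two_ne_zero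
    apply hroot x
    rw [hy] at h2
    linear_combination -h2

lemma selT {a b : 𝓞 K} (h : TrivialSelmer a b) : T9h30.PG.SelT a b 2 := by
  intro M _ _ _ _ _ f hf
  refine h M f ⟨hf.coc, hf.tor, fun w hw g hg => hf.unr w (fun h1 => hw ?_) g hg,
    fun v hv ι => hf.loc v ?_ ι⟩
  · rw [map_mul, map_mul, map_natCast, map_ofNat] at h1
    rw [map_mul, map_ofNat]
    exact two_mem' w.isPrime h1
  · have e : 2 * ((2 : ℕ) : 𝓞 K) * (4 * a ^ 3 + 27 * b ^ 2) =
        ((2 : ℕ) : 𝓞 K) * (2 * (4 * a ^ 3 + 27 * b ^ 2)) := by ring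
    rw [e]
    exact v.asIdeal.mul_mem_left _ hv

omit [NumberField K] in
lemma bc_eq {F : Type} [Field F] [NumberField F] [Algebra K F] {a b : 𝓞 K} :
    (T9h30.BT.cv (a : K) (b : K)).baseChange F = T9h30.BT.cF F a b := by
  unfold T9h30.BT.cF WeierstrassCurve.baseChange
  rw [T9h30.BT.cv_map]

lemma adp_of {a b : 𝓞 K} {v : HeightOneSpectrum (𝓞 K)} (h : Admissible a b v) :
    T9h30.PG.Adp a b 2 v := by
  refine ⟨fun h1 => h.1 (two_mem' v.isPrime h1), ?_⟩
  have h2 : (2 : 𝓞 K) ∉ v.asIdeal := fun h2 => h.1 (v.asIdeal.mul_mem_right _ h2)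
  obtain ⟨k, hk⟩ := K4H55.BD.pv_even (a := a) (b := b) h2 h.2
  have hk' : T9h30.BT.pp a b v = 2 * k := hk
  omega

open Pool.Agent.T9h30.VL in
/-- all the statements -/
theorem conclusion_of [IsPrincipalIdealRing (𝓞 K)] {F : Type} [Field F] [DecidableEq F]
    [NumberField F] [Algebra K F] [IsGalois K F] {a b : 𝓞 K} {σ : K →+* ℂ} {δ : K}
    {n : 𝓞 K} {c : Ideal (𝓞 K) → ℂ} (h : T9h30.TP.Dat2 σ δ n c a b)
    (h2 : ∀ t : F ≃ₐ[K] F, t * t = 1)
    (hsp : ∀ v : HeightOneSpectrum (𝓞 K), 2 * (4 * a ^ 3 + 27 * b ^ 2) ∈ v.asIdeal →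
      Nonempty (F →ₐ[K] v.adicCompletion K))
    (hun : ∀ v : HeightOneSpectrum (𝓞 K), 2 * (4 * a ^ 3 + 27 * b ^ 2) ∉ v.asIdeal →
      ¬ (∀ x : 𝓞 K, x ^ 3 + a * x + b ∉ v.asIdeal) → ∀ u : T9h30.BT.Ab F v, ∀ x : K,
        u.1.valuation F (algebraMap K F x) = v.valuation K x) :
    Conclusion (curve (a : K) (b : K)) F := by
  classical
  obtain ⟨h1, h2, h3, h4, ⟨h5, h6⟩, h7, h8⟩ := T9h30.TP.main h h2 hsp (fun v h3 h4 u x =>
    hun v h3 (fun h5 => h4 (adp_of ⟨h3, h5⟩)) u x)
  have e : (curve (a : K) (b : K)).baseChange F = T9h30.BT.cF F a b := bc_eq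
  refine ⟨rankZero_of ⟨h1, h2⟩, ?_, ?_, ?_, ?_, ?_⟩
  · rw [e]
    exact h3
  · rw [e]
    exact h4
  · rw [e]
    exact ⟨h5, h6⟩
  · rw [e]
    exact h7
  · rw [e]
    exact h8

open Pool.Agent.T9h30.VL in
/-- all the statements, for abelian extensions -/
theorem conclusion_ab [IsPrincipalIdealRing (𝓞 K)] {F : Type} [Field F] [DecidableEq F]
    [NumberField F] [Algebra K F] [IsGalois K F] {a b : 𝓞 K} {σ : K →+* ℂ} {δ : K}
    {n : 𝓞 K} {c : Ideal (𝓞 K) → ℂ} (h : T9h30.TP.Dat2 σ δ n c a b) {k : ℕ}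
    (hk : Module.finrank K F = 2 ^ k) (hsp : Splits F a b)
    (hc : ∀ s t : F ≃ₐ[K] F, s * t = t * s)
    {T : ((F ≃ₐ[K] F) →* ℂˣ) → Finset (HeightOneSpectrum (𝓞 K))}
    {χ : ((F ≃ₐ[K] F) →* ℂˣ) → 𝓞 K → ℂ} {S : Finset (HeightOneSpectrum (𝓞 K))}
    (hR : Rcp a b 2 S T χ) : Conclusion (curve (a : K) (b : K)) F := by
  classical
  obtain ⟨h1, h2, h3, h4, ⟨h5, h6⟩, h7, h8⟩ := T9h30.TP.main_ab h hk hsp hc hR
  have e : (curve (a : K) (b : K)).baseChange F = T9h30.BT.cF F a b := bc_eq
  refine ⟨rankZero_of ⟨h1, h2⟩, ?_, ?_, ?_, ?_, ?_⟩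
  · rw [e]
    exact h3
  · rw [e]
    exact h4
  · rw [e]
    exact ⟨h5, h6⟩
  · rw [e]
    exact h7
  · rw [e]
    exact h8

/-- the numbers whose prime divisors are admissible are odd -/
lemma cop_two {σ : K →+* ℂ} {δ : K} (hI : K4H55.BI.IQ K σ δ) {a b : 𝓞 K} {m : ℕ}
    (hm : ∀ v : HeightOneSpectrum (𝓞 K), (m : 𝓞 K) ∈ v.asIdeal → T9h30.PG.Adp a b 2 v) :
    Nat.Coprime 2 m := by
  rw [Nat.coprime_two_left, ← Nat.not_even_iff_odd, even_iff_two_dvd]
  rintro ⟨r, rfl⟩
  obtain ⟨ω, t₀, n₀, hB⟩ := T9h30.BT.exists_bs hI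
  have h1 : Ideal.span {((2 : ℕ) : 𝓞 K)} ≠ ⊤ := by
    intro h
    have h2 := T9h30.BT.absNorm_eq hB ((2 : ℕ) : 𝓞 K)
    have h3 := T9h30.BT.norm_int' hB ((2 : ℕ) : ℤ)
    rw [Int.cast_natCast] at h3
    rw [h3, h, Ideal.absNorm_top] at h2
    norm_num at h2
  obtain ⟨M, hM, hle⟩ := Ideal.exists_le_maximal _ h1
  have h2 : ((2 : ℕ) : 𝓞 K) ∈ M := hle (Ideal.mem_span_singleton_self _)
  have hM0 : M ≠ ⊥ := by
    rintro rfl
    rw [Ideal.mem_bot] at h2
    exact two_ne_zero (by exact_mod_cast h2)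
  refine (hm ⟨M, hM.isPrime, hM0⟩ ?_).1 ?_
  · show ((2 * r : ℕ) : 𝓞 K) ∈ M
    rw [Nat.cast_mul]
    exact M.mul_mem_right _ h2
  · show 2 * ((2 : ℕ) : 𝓞 K) * (4 * a ^ 3 + 27 * b ^ 2) ∈ M
    exact M.mul_mem_right _ (M.mul_mem_left _ h2)

end proof

/-- **The `2`-part of the conjecture of Birch and Swinnerton-Dyer over abelian extensions of `2`-power degree.** Let `K`
be an imaginary quadratic field of class number one, and let `E : y² = x³ + a x + b` be an elliptic curve over `K` with
the newform `f`; suppose that `x³ + a x + b` has no root in `K`, that the `2`-Selmer group of `E/K` is trivial, and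
that the central value is odd. Then the conclusion (the rank form of the conjecture, `Ш(E/F)[2^∞] = 0`, the value
`L(E/F, 1)` relative to `K`, and the `2`-part of the formula for `E/F` if it holds for `E/K`) is true for
(1) all multiquadratic extensions `F/K` unramified outside of the admissible places, in which the places
`v ∣ 2(4a³ + 27b²)` split completely;
(2) the subfields `F` of `K(ζ_m)` of `2`-power degree over `K` in which the places `v ∣ 2(4a³ + 27b²)` split completely, if
all places `v ∣ m` of `K` are admissible;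
(3) the abelian extensions `F/K` of `2`-power degree which are the class fields of characters of `K`
whose conductors are products of different admissible places, if the places `v ∣ 2(4a³ + 27b²)` split completely
in `F`;
(4) if for some prime number `l₀` all places `v ∣ l₀` of `K` are admissible, then for every `N` there is a set `P` of
prime numbers `l ≡ 1` modulo `2 ^ N`, of positive density, such that it is true for all subfields `F` of `K(ζ_m)` with
`t ^ (2 ^ N) = 1` for all `t ∈ Gal(F/K)`, for the products `m` of different elements of `P`;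
(5) for a set `P` of prime elements of `𝓞`, no two of them associated, of positive upper density, all the fields `F`
generated over `K` by square roots of products of two elements of `P`. -/
theorem result (K : Type) [Field K] [NumberField K] [IsPrincipalIdealRing (𝓞 K)] (σ : K →+* ℂ)
    (δ : K) (hK : IsFieldData K σ δ) (a b : 𝓞 K) (hΔ : 4 * a ^ 3 + 27 * b ^ 2 ≠ 0) (n : 𝓞 K)
    (c : Ideal (𝓞 K) → ℂ) (hf : IsNewform σ δ n c) (hE : IsNewformOf (curve (a : K) (b : K)) n c)
    (hroot : ∀ x : K, x ^ 3 + a * x + b ≠ 0) (hS : TrivialSelmer a b)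
    (hval : OddCentralValue σ δ n c) :
    (∀ (F : Type) [Field F] [DecidableEq F] [NumberField F] [Algebra K F],
      IsMultiquadratic F a b → Splits F a b → Conclusion (curve (a : K) (b : K)) F) ∧
    (∀ m : ℕ, m ≠ 0 →
      (∀ v : HeightOneSpectrum (𝓞 K), (m : 𝓞 K) ∈ v.asIdeal → Admissible a b v) →
      ∀ (F : Type) [Field F] [DecidableEq F] [NumberField F] [Algebra K F],
        Nonempty (F →ₐ[K] CyclotomicField m K) → (∃ k : ℕ, Module.finrank K F = 2 ^ k) →
        Splits F a b → Conclusion (curve (a : K) (b : K)) F) ∧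
    (∀ (F : Type) [Field F] [DecidableEq F] [NumberField F] [Algebra K F],
      IsClassField F a b → Splits F a b → Conclusion (curve (a : K) (b : K)) F) ∧
    ((∃ l₀ : ℕ, l₀.Prime ∧ ∀ v : HeightOneSpectrum (𝓞 K), (l₀ : 𝓞 K) ∈ v.asIdeal →
        Admissible a b v) →
      ∀ N : ℕ, ∃ P : Set ℕ, PositiveDensity P ∧ (∀ l ∈ P, l.Prime ∧ l ≡ 1 [MOD 2 ^ N]) ∧
        ∀ S : Finset ℕ, (∀ l ∈ S, l ∈ P) →
          ∀ (F : Type) [Field F] [DecidableEq F] [NumberField F] [Algebra K F],
            Nonempty (F →ₐ[K] CyclotomicField (∏ l ∈ S, l) K) →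
            (∀ t : F ≃ₐ[K] F, t ^ 2 ^ N = 1) → Conclusion (curve (a : K) (b : K)) F) ∧
    ∃ P : Set (𝓞 K), PositiveUpperDensity P ∧ (∀ π ∈ P, Prime π) ∧
      (∀ π ∈ P, ∀ π' ∈ P, Associated π π' → π = π') ∧
      ∀ (F : Type) [Field F] [DecidableEq F] [NumberField F] [Algebra K F],
        IntermediateField.adjoin K {x : F | ∃ π ∈ P, ∃ π' ∈ P,
          x ^ 2 = algebraMap K F ((π * π' : 𝓞 K) : K)} = ⊤ →
        Conclusion (curve (a : K) (b : K)) F := by
  have hD : T9h30.TP.Dat2 σ δ n c a b := by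
    obtain ⟨z, hz, hz'⟩ := hval
    obtain ⟨ω, hω', hω⟩ := hf.cyclic
    exact ⟨⟨hK.quadratic, hK.imaginary, inferInstance, hK.different⟩,
      ⟨hf.level, hf.zero, hf.one, hf.bound, hf.good, hf.bad, hf.invariant, hf.fricke⟩, hΔ, nf_of hE,
      ⟨z, ω, hz, hω, hω', hz'⟩, noTors hroot, selT hS⟩
  have h1 : ∀ m : ℕ, m ≠ 0 →
      (∀ v : HeightOneSpectrum (𝓞 K), (m : 𝓞 K) ∈ v.asIdeal → T9h30.PG.Adp a b 2 v) →
      ∀ (F : Type) [Field F] [DecidableEq F] [NumberField F] [Algebra K F],
        Nonempty (F →ₐ[K] CyclotomicField m K) → (∃ k : ℕ, Module.finrank K F = 2 ^ k) →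
        Splits F a b → Conclusion (curve (a : K) (b : K)) F := by
    intro m hm hadm F _ _ _ _ hFC hk hsp
    have hm' : NeZero m := ⟨hm⟩
    obtain ⟨k, hk⟩ := hk
    obtain ⟨e⟩ := hFC
    let _ : Algebra F (CyclotomicField m K) := e.toRingHom.toAlgebra
    have ht : IsScalarTower K F (CyclotomicField m K) :=
      IsScalarTower.of_algebraMap_eq fun x => (e.commutes x).symm
    have hab : IsAbelianGalois K (CyclotomicField m K) :=
      IsCyclotomicExtension.isAbelianGalois {m} K (CyclotomicField m K)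
    have hab2 : IsAbelianGalois K F := IsAbelianGalois.tower_bot K F (CyclotomicField m K)
    obtain ⟨hc, T, χ, hR⟩ := T9h30.TP.cyc_Rcp (F := F) hD.iq (cop_two hD.iq hadm) hadm
      (CyclotomicField m K) hk
    exact conclusion_ab hD hk hsp hc hR
  refine ⟨fun F _ _ _ _ hF hsp => ?_, fun m hm hadm F _ _ _ _ hFC hk hsp =>
    h1 m hm (fun v hv => adp_of (hadm v hv)) F hFC hk hsp, fun F _ _ _ _ hF hsp => ?_,
    fun ⟨l₀, hl₀, h₀⟩ N => ?_, ?_⟩
  · have hG := hF.galois
    refine conclusion_of hD hF.square hsp fun v h3 h4 u x => ?_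
    exact hF.unramified v h3 (fun h5 => h4 h5.2) ⟨u.1, T9h30.BT.lo_iff.1 u.2⟩ x
  · classical
    obtain ⟨k, hk⟩ := hF.degree
    have hG := hF.galois
    have hrec : ∀ ψ : (F ≃ₐ[K] F) →* ℂˣ, ∃ (T : Finset (HeightOneSpectrum (𝓞 K))) (χ : 𝓞 K → ℂ),
        IsCharacter T χ ∧ (∀ v ∈ T, Admissible a b v) ∧
        ∀ u : HeightOneSpectrum (𝓞 F), T9h30.BT.lo (K := K) u ∉ T → ∀ t : F ≃ₐ[K] F,
          T9h30.BT.Frb u t → ((ψ t : ℂˣ) : ℂ) = χ (K4H55.BI.gen (T9h30.BT.lo (K := K) u)) := by
      intro ψ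
      obtain ⟨T, χ, h1, h2, h3⟩ := hF.reciprocity ((Units.coeHom ℂ).comp ψ)
      exact ⟨T, χ, h1, h2, fun u hu t ht => h3 _ hu ⟨u, rfl⟩ t ht⟩
    choose T χ hχ hT hlaw using hrec
    have hfin : Finite ((F ≃ₐ[K] F) →* ℂˣ) := T9h30.BT.fin_dual' hF.abelian
    let _ : Fintype ((F ≃ₐ[K] F) →* ℂˣ) := Fintype.ofFinite _
    refine conclusion_ab hD hk hsp hF.abelian (T := T) (χ := χ)
      (S := Finset.univ.biUnion T) ⟨fun ψ => ?_, fun ψ => ?_, fun v hv => ?_,
        fun ψ u hu t ht => ?_⟩
    · exact ⟨(hχ ψ).one, (hχ ψ).mul, (hχ ψ).zero, (hχ ψ).periodic, (hχ ψ).units, (hχ ψ).primitive,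
        (hχ ψ).order⟩
    · exact Finset.subset_biUnion_of_mem T (Finset.mem_univ ψ)
    · obtain ⟨ψ, -, hψ⟩ := Finset.mem_biUnion.1 hv
      exact adp_of (hT ψ v hψ)
    · refine hlaw ψ u (fun h => hu ?_) t ht
      exact Finset.mem_biUnion.2 ⟨ψ, Finset.mem_univ ψ, h⟩
  · obtain ⟨ω, t₀, n₀, hB⟩ := T9h30.BT.exists_bs hD.iq
    obtain ⟨P, hd, g1, g2, g3⟩ := T9h30.TP.exists_set1 hB hΔ Nat.prime_two hl₀
      (fun v hv => ⟨Nat.odd_iff.1 (K4H55.BM.norm_odd fun h2 =>
        (h₀ v hv).1 (v.asIdeal.mul_mem_right _ h2)), adp_of (h₀ v hv)⟩) (N + 1)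
    refine ⟨P, hd, fun l hl => ⟨(g1 l hl).1, ?_⟩, fun S hS F _ _ _ _ hFC hexp => ?_⟩
    · have h4 : (l : ZMod (2 ^ (N + 1))) = ((1 : ℕ) : ZMod (2 ^ (N + 1))) := by
        rw [Nat.cast_one]
        exact (g1 l hl).2
      rw [ZMod.natCast_eq_natCast_iff] at h4
      exact h4.of_dvd (pow_dvd_pow 2 (Nat.le_succ N))
    · obtain ⟨k1, k2, k3, k4, k5⟩ :=
        T9h30.TP.Dat2_fam hD (fun l hl => (g1 l hl).1) g2 g3 S hS F hFC hexp
      refine h1 _ k1 k3 F hFC k4 fun v hv => k5 v ?_
      have e : 2 * ((2 : ℕ) : 𝓞 K) * (4 * a ^ 3 + 27 * b ^ 2) =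
          ((2 : ℕ) : 𝓞 K) * (2 * (4 * a ^ 3 + 27 * b ^ 2)) := by ring
      rw [e]
      exact v.asIdeal.mul_mem_left _ hv
  · -- the set of primes
    classical
    set D : 𝓞 K := 4 * a ^ 3 + 27 * b ^ 2 with hD'
    have hΔ' : (4 : K) * (a : K) ^ 3 + 27 * (b : K) ^ 2 ≠ 0 := by
      have h1 : algebraMap (𝓞 K) K (4 * a ^ 3 + 27 * b ^ 2) ≠ 0 := by
        rwa [Ne, FaithfulSMul.algebraMap_eq_zero_iff]
      intro h2
      apply h1
      rw [map_add, map_mul, map_mul, map_pow, map_pow, map_ofNat, map_ofNat]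
      exact h2
    obtain ⟨g, hg⟩ := T9h30.BT.exists_move hΔ' hroot
    obtain ⟨d, hd, hdX⟩ := T9h30.BT.dens_adm (K := K) (J := Unit) (a := fun _ => a) (b := fun _ => b)
      (fun _ => hΔ) (g := g) (fun _ => hg)
    have hm0 : 4 * (2 * D) ≠ 0 := by
      have : (4 : 𝓞 K) = 2 * 2 := by norm_num
      rw [this]
      exact mul_ne_zero (mul_ne_zero two_ne_zero two_ne_zero) (mul_ne_zero two_ne_zero hΔ)
    have hfin : Finite (𝓞 K ⧸ Ideal.span {4 * (2 * D)}) := by
      refine Ideal.finiteQuotientOfFreeOfNeBot _ ?_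
      rwa [Ne, Ideal.span_singleton_eq_bot]
    obtain ⟨r, d', hd', hr⟩ := T9h30.BT.class_adm hd hdX
      (fun v => Ideal.Quotient.mk (Ideal.span {4 * (2 * D)}) (K4H55.BI.gen v))
    set V : Set (HeightOneSpectrum (𝓞 K)) := {v | v ∈ {v : HeightOneSpectrum (𝓞 K) | ∀ _i : Unit,
      2 * (4 * a ^ 3 + 27 * b ^ 2) ∉ v.asIdeal ∧ ∀ x : 𝓞 K, x ^ 3 + a * x + b ∉ v.asIdeal} ∧
      Ideal.Quotient.mk (Ideal.span {4 * (2 * D)}) (K4H55.BI.gen v) = r} with hV
    have hVadm : ∀ v ∈ V, 2 * D ∉ v.asIdeal ∧ ∀ x : 𝓞 K, x ^ 3 + a * x + b ∉ v.asIdeal :=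
      fun v hv => hv.1 ()
    have hVc : ∀ v ∈ V, ∀ w ∈ V, 4 * (2 * D) ∣ K4H55.BI.gen v - K4H55.BI.gen w := by
      intro v hv w hw
      rw [← Ideal.mem_span_singleton, ← Ideal.Quotient.eq]
      exact hv.2.trans hw.2.symm
    refine ⟨K4H55.BI.gen '' V, ⟨d', hd', ?_⟩, ?_, ?_, ?_⟩
    · refine hr.mono fun N hN => ?_
      have e : {π | π ∈ K4H55.BI.gen '' V ∧ Ideal.absNorm (Ideal.span {π}) ≤ N} =
          K4H55.BI.gen '' {v | Ideal.absNorm v.asIdeal ≤ N ∧ v ∈ V} := by
        ext π
        constructor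
        · rintro ⟨⟨v, hv, rfl⟩, h1⟩
          rw [K4H55.BI.gen_span] at h1
          exact ⟨v, ⟨h1, hv⟩, rfl⟩
        · rintro ⟨v, ⟨h1, hv⟩, rfl⟩
          refine ⟨⟨v, hv, rfl⟩, ?_⟩
          rwa [K4H55.BI.gen_span]
      rw [e, Set.ncard_image_of_injective _ K4H55.BI.gen_inj]
      exact hN
    · rintro _ ⟨v, -, rfl⟩
      exact K4H55.BI.gen_prime v
    · rintro _ ⟨v, -, rfl⟩ _ ⟨w, -, rfl⟩ h1
      rw [K4H55.BI.gen_na h1.dvd]
    · intro F _ _ _ _ hF
      set A : Set (𝓞 K) := {α | ∃ v ∈ V, ∃ w ∈ V, α = K4H55.BI.gen v * K4H55.BI.gen w} with hA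
      have hrts : T9h30.BT.rts F A = {x : F | ∃ π ∈ K4H55.BI.gen '' V, ∃ π' ∈ K4H55.BI.gen '' V,
          x ^ 2 = algebraMap K F ((π * π' : 𝓞 K) : K)} := by
        ext x
        constructor
        · rintro ⟨_, ⟨v, hv, w, hw, rfl⟩, hx⟩
          exact ⟨_, ⟨v, hv, rfl⟩, _, ⟨w, hw, rfl⟩, hx⟩
        · rintro ⟨_, ⟨v, hv, rfl⟩, _, ⟨w, hw, rfl⟩, hx⟩
          exact ⟨_, ⟨v, hv, w, hw, rfl⟩, hx⟩
      rw [← hrts] at hF
      have hgs : T9h30.BT.Gs A D {v | 2 * (4 * a ^ 3 + 27 * b ^ 2) ∉ v.asIdeal ∧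
          ∀ x : 𝓞 K, x ^ 3 + a * x + b ∉ v.asIdeal} := by
        refine ⟨?_, ?_⟩
        · rintro _ ⟨v, hv, w, hw, rfl⟩
          refine ⟨K4H55.BI.gen w, ?_, fun v' h1 h2 => ?_⟩
          · have e : K4H55.BI.gen v * K4H55.BI.gen w - K4H55.BI.gen w ^ 2 =
                (K4H55.BI.gen v - K4H55.BI.gen w) * K4H55.BI.gen w := by ring
            rw [e]
            exact (hVc v hv w hw).mul_right _
          · have h3 := K4H55.BI.gen_na (K4H55.BI.gen_dvd.2 h2)
            rw [h3] at h1
            exact (hVadm w hw).1 h1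
        · rintro _ ⟨v, hv, w, hw, rfl⟩ v' h1
          rcases v'.isPrime.mem_or_mem h1 with h2 | h2
          · have h3 := K4H55.BI.gen_na (K4H55.BI.gen_dvd.2 h2)
            rw [h3]
            exact hVadm v hv
          · have h3 := K4H55.BI.gen_na (K4H55.BI.gen_dvd.2 h2)
            rw [h3]
            exact hVadm w hw
      have hG := T9h30.BT.mq_galois hF
      refine conclusion_of hD (T9h30.BT.mq_sq hF) (fun v hv => hgs.split hF hv)
        fun v h3 h4 u x => ?_
      exact hgs.unr hF h3 (fun h5 => h4 h5.2) u x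

end Pool.Agent.Results.MP_e996df_nt.TwoPartExtensions
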